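import Mathlib

/-!
# `x ^ p - y ^ q = 6` with `p` divisible by 6 or by 10: reciprocity
-/

set_option autoImplicit false

namespace Pool.Agent.SIX

open Finset

/-- a square is `≥ 0` in the Jacobi symbol -/
theorem jac_nonneg {X c : ℤ} {m : ℕ} (h : (m : ℤ) ∣ X ^ 2 - c) : 0 ≤ jacobiSym c m := by
  have h1 : c % m = X ^ 2 % m := Int.modEq_iff_dvd.2 h
  rw [jacobiSym.mod_left' h1, jacobiSym.pow_left]
  exact sq_nonneg _

/-- if `c X ^ 2 ≡ 1 mod m` then `(c / m) = 1` -/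
theorem jac_one {X c : ℤ} {m : ℕ} (h : (m : ℤ) ∣ c * X ^ 2 - 1) : jacobiSym c m = 1 := by
  have h1 : 1 % (m : ℤ) = (c * X ^ 2) % m := Int.modEq_iff_dvd.2 h
  have h2 := jacobiSym.mod_left' h1
  rw [jacobiSym.one_left, jacobiSym.mul_left, jacobiSym.pow_left] at h2
  have h3 : 0 < jacobiSym c m := by
    by_contra hc
    have := mul_nonneg (neg_nonneg.2 (not_lt.1 hc)) (sq_nonneg (jacobiSym X m))
    nlinarith
  rcases jacobiSym.trichotomy c m with h4 | h4 | h4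
  · rw [h4] at h3; exact absurd h3 (lt_irrefl _)
  · exact h4
  · rw [h4] at h3; norm_num at h3

theorem mod_eight {X z : ℤ} {d : ℕ} (hd : d % 2 = 1) (hd3 : 3 ≤ d) (h : X ^ 2 = z ^ d + 6) :
    z % 8 = 3 := by
  have h8 : ((X : ZMod 8)) ^ 2 = (z : ZMod 8) ^ d + 6 := by
    have := congrArg (fun t : ℤ => (t : ZMod 8)) h
    push_cast at this
    exact this
  have key : ∀ w : ZMod 8, w ^ 2 = 1 ∨ w ^ 3 = 0 := by decide
  have k1 : ∀ v w : ZMod 8, v ^ 2 = w + 6 → w ^ 2 = 1 → w = 3 := by decide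
  have k2 : ∀ v : ZMod 8, v ^ 2 ≠ 6 := by decide
  have hz : (z : ZMod 8) = 3 := by
    rcases key (z : ZMod 8) with h1 | h1
    · obtain ⟨k, hk⟩ : ∃ k, d = 2 * k + 1 := ⟨d / 2, by omega⟩
      have e : (z : ZMod 8) ^ d = z := by
        rw [hk, pow_succ, pow_mul, h1, one_pow, one_mul]
      rw [e] at h8
      exact k1 _ _ h8 h1
    · obtain ⟨k, hk⟩ : ∃ k, d = 3 + k := ⟨d - 3, by omega⟩
      have e : (z : ZMod 8) ^ d = 0 := by
        rw [hk, pow_add, h1, zero_mul]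
      rw [e, zero_add] at h8
      exact absurd h8 (k2 _)
  have h3 : (z : ZMod 8) = ((3 : ℤ) : ZMod 8) := by
    rw [hz]; norm_num
  rw [ZMod.intCast_eq_intCast_iff'] at h3
  exact_mod_cast h3

/-- residues mod 7 with nonnegative symbol -/
theorem res7 {m : ℕ} (h : 0 ≤ jacobiSym (m : ℤ) 7) : m % 7 = 0 ∨ m % 7 = 1 ∨ m % 7 = 2 ∨ m % 7 = 4 := by
  have h1 := jacobiSym.mod_left (m : ℤ) 7
  have h2 : m % 7 < 7 := Nat.mod_lt _ (by norm_num)
  have h3 : ((m : ℤ) % ((7 : ℕ) : ℤ)) = ((m % 7 : ℕ) : ℤ) := by push_cast; rfl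
  rw [h3] at h1
  rw [h1] at h
  generalize m % 7 = r at *
  interval_cases r
  · left; rfl
  · right; left; rfl
  · right; right; left; rfl
  · exact absurd h (by norm_num)
  · right; right; right; rfl
  · exact absurd h (by norm_num)
  · exact absurd h (by norm_num)

theorem res7' {m : ℕ} (h : jacobiSym (m : ℤ) 7 = -1) : m % 7 = 3 ∨ m % 7 = 5 ∨ m % 7 = 6 := by
  have h1 := jacobiSym.mod_left (m : ℤ) 7
  have h2 : m % 7 < 7 := Nat.mod_lt _ (by norm_num)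
  have h3 : ((m : ℤ) % ((7 : ℕ) : ℤ)) = ((m % 7 : ℕ) : ℤ) := by push_cast; rfl
  rw [h3] at h1
  rw [h1] at h
  generalize m % 7 = r at *
  interval_cases r
  · exact absurd h (by norm_num)
  · exact absurd h (by norm_num)
  · exact absurd h (by norm_num)
  · left; rfl
  · exact absurd h (by norm_num)
  · right; left; rfl
  · right; right; rfl

theorem res5 {m : ℕ} (h : 0 ≤ jacobiSym (m : ℤ) 5) : m % 5 = 0 ∨ m % 5 = 1 ∨ m % 5 = 4 := by
  have h1 := jacobiSym.mod_left (m : ℤ) 5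
  have h2 : m % 5 < 5 := Nat.mod_lt _ (by norm_num)
  have h3 : ((m : ℤ) % ((5 : ℕ) : ℤ)) = ((m % 5 : ℕ) : ℤ) := by push_cast; rfl
  rw [h3] at h1
  rw [h1] at h
  generalize m % 5 = r at *
  interval_cases r
  · left; rfl
  · right; left; rfl
  · exact absurd h (by norm_num)
  · exact absurd h (by norm_num)
  · right; right; rfl

theorem res5' {m : ℕ} (h : jacobiSym (m : ℤ) 5 = 1) : m % 5 = 1 ∨ m % 5 = 4 := by
  have h1 := jacobiSym.mod_left (m : ℤ) 5
  have h2 : m % 5 < 5 := Nat.mod_lt _ (by norm_num)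
  have h3 : ((m : ℤ) % ((5 : ℕ) : ℤ)) = ((m % 5 : ℕ) : ℤ) := by push_cast; rfl
  rw [h3] at h1
  rw [h1] at h
  generalize m % 5 = r at *
  interval_cases r
  · exact absurd h (by norm_num)
  · left; rfl
  · exact absurd h (by norm_num)
  · exact absurd h (by norm_num)
  · right; rfl

/-- `z ≡ 1, 2, 3, 5 mod 7` -/
theorem seven_a {X z : ℤ} {d : ℕ} (hd : d % 2 = 1) (hd3 : 3 ≤ d) (hz : 0 < z)
    (h : X ^ 2 = z ^ d + 6) : z % 7 = 1 ∨ z % 7 = 2 ∨ z % 7 = 3 ∨ z % 7 = 5 := by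
  have h8 := mod_eight hd hd3 h
  obtain ⟨t, ht⟩ : ∃ t : ℕ, z = 8 * t + 3 := ⟨(z / 8).toNat, by omega⟩
  obtain ⟨m, hm⟩ : ∃ m : ℕ, m = 4 * t + 1 := ⟨_, rfl⟩
  have hzm : z = 2 * m + 1 := by rw [ht, hm]; push_cast; ring
  have hdvd : (m : ℤ) ∣ X ^ 2 - 7 := by
    have e : X ^ 2 - 7 = z ^ d - 1 := by rw [h]; ring
    rw [e]
    have h1 : z - 1 ∣ z ^ d - 1 := by simpa using sub_dvd_pow_sub_pow z 1 d
    exact dvd_trans ⟨2, by rw [hzm]; ring⟩ h1
  have hJ := jac_nonneg hdvd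
  have hq := jacobiSym.quadratic_reciprocity_one_mod_four (a := m) (b := 7) (by omega) (by decide)
  have h2 : 0 ≤ jacobiSym (m : ℤ) 7 := by
    rw [hq]; exact_mod_cast hJ
  have h3 := res7 h2
  omega

/-- `z ≡ 0, 3, 4 mod 5` -/
theorem five_a {X z : ℤ} {d : ℕ} (hd : d % 2 = 1) (hd3 : 3 ≤ d) (hz : 0 < z)
    (h : X ^ 2 = z ^ d + 6) : z % 5 = 0 ∨ z % 5 = 3 ∨ z % 5 = 4 := by
  have h8 := mod_eight hd hd3 h
  obtain ⟨t, ht⟩ : ∃ t : ℕ, z = 8 * t + 3 := ⟨(z / 8).toNat, by omega⟩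
  obtain ⟨m, hm⟩ : ∃ m : ℕ, m = 2 * t + 1 := ⟨_, rfl⟩
  have hzm : z = 4 * m - 1 := by rw [ht, hm]; push_cast; ring
  have hodd : Odd d := Nat.odd_iff.2 hd
  have hdvd : (m : ℤ) ∣ X ^ 2 - 5 := by
    have e : X ^ 2 - 5 = z ^ d + 1 := by rw [h]; ring
    rw [e]
    have h1 : z + 1 ∣ z ^ d + 1 := by simpa using hodd.add_dvd_pow_add_pow z 1
    exact dvd_trans ⟨4, by rw [hzm]; ring⟩ h1
  have hJ := jac_nonneg hdvd
  have hq := jacobiSym.quadratic_reciprocity_one_mod_four (a := 5) (b := m) (by norm_num)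
    (Nat.odd_iff.2 (by omega))
  have h2 : 0 ≤ jacobiSym (m : ℤ) 5 := by
    rw [← hq]; exact_mod_cast hJ
  have h3 := res5 h2
  omega

/-- if `7 ∣ X` then `d` is a square mod 7 -/
theorem seven_b {X z : ℤ} {d : ℕ} (hd : d % 2 = 1) (hd' : d % 3 ≠ 0) (hd3 : 3 ≤ d) (hz : 0 < z)
    (h : X ^ 2 = z ^ d + 6) (hX : (7 : ℤ) ∣ X) : d % 7 = 1 ∨ d % 7 = 2 ∨ d % 7 = 4 := by
  have h8 := mod_eight hd hd3 h
  obtain ⟨Y, hY⟩ := hX
  -- `z ≡ 1 mod 7`
  have hz7 : (z : ZMod 7) = 1 := by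
    have h7 : ((X : ZMod 7)) ^ 2 = (z : ZMod 7) ^ d + 6 := by
      have := congrArg (fun t : ℤ => (t : ZMod 7)) h
      push_cast at this
      exact this
    have hX0 : (X : ZMod 7) = 0 := by
      rw [hY]; push_cast
      have : (7 : ZMod 7) = 0 := by decide
      rw [this, zero_mul]
    rw [hX0] at h7
    have k : ∀ w : ZMod 7, w = 0 ∨ w ^ 6 = 1 := by decide
    have k1 : ∀ w : ZMod 7, 0 ^ 2 = w + 6 → w = 1 := by decide
    have h71 := k1 _ h7
    rcases k (z : ZMod 7) with h0 | h0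
    · rw [h0, zero_pow (by omega)] at h71
      exact absurd h71 (by decide)
    · have hd6 : d % 6 = 1 ∨ d % 6 = 5 := by omega
      have e : (z : ZMod 7) ^ d = (z : ZMod 7) ^ (d % 6) := by
        conv_lhs => rw [← Nat.div_add_mod d 6, pow_add, pow_mul, h0, one_pow, one_mul]
      rw [e] at h71
      have k5 : ∀ w : ZMod 7, w ^ 5 = 1 → w = 1 := by decide
      rcases hd6 with h6 | h6
      · rw [h6, pow_one] at h71; exact h71
      · rw [h6] at h71; exact k5 _ h71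
  have hz7' : z % 7 = 1 := by
    have h3 : (z : ZMod 7) = ((1 : ℤ) : ZMod 7) := by rw [hz7]; norm_num
    rw [ZMod.intCast_eq_intCast_iff'] at h3
    exact_mod_cast h3
  obtain ⟨m, hm⟩ : ∃ m : ℕ, z = 14 * m + 1 := ⟨(z / 14).toNat, by omega⟩
  have hm4 : m % 4 = 3 := by omega
  set B : ℤ := ∑ i ∈ range d, z ^ i with hB
  have hgs : B * (z - 1) = z ^ d - 1 := geom_sum_mul z d
  have hB7 : ((B : ℤ) : ZMod 7) = (d : ZMod 7) := by
    rw [hB]; push_cast
    rw [hz7]; simp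
  have hmain : 7 * Y ^ 2 - 1 = 2 * m * B := by
    have e1 : X ^ 2 = B * (z - 1) + 7 := by rw [hgs, h]; ring
    rw [hY, hm] at e1
    have e2 : 7 * (7 * Y ^ 2 - 1) = 7 * (2 * m * B) := by linarith
    linarith
  have hJ : jacobiSym 7 m = 1 := jac_one (X := Y) (c := 7) ⟨2 * B, by rw [hmain]; ring⟩
  have hq := jacobiSym.quadratic_reciprocity_three_mod_four (a := m) (b := 7) hm4 (by norm_num)
  have hJ2 : jacobiSym (m : ℤ) 7 = -1 := by
    rw [hq]
    have : ((7 : ℕ) : ℤ) = 7 := by norm_num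
    rw [this, hJ]
  have h3 := res7' hJ2
  -- mod 7
  have h4 : (2 : ZMod 7) * (m : ZMod 7) * (d : ZMod 7) = 6 := by
    have := congrArg (fun t : ℤ => (t : ZMod 7)) hmain
    push_cast at this
    rw [hB7] at this
    rw [← this]
    have h70 : (7 : ZMod 7) = 0 := by decide
    rw [h70]; ring_nf; decide
  have h5 : ((m % 7 : ℕ) : ZMod 7) = (m : ZMod 7) := ZMod.natCast_mod m 7
  have h6 : ((d % 7 : ℕ) : ZMod 7) = (d : ZMod 7) := ZMod.natCast_mod d 7
  rw [← h5, ← h6] at h4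
  have hd7 : d % 7 < 7 := Nat.mod_lt _ (by norm_num)
  generalize d % 7 = r at *
  generalize m % 7 = s at *
  rcases h3 with rfl | rfl | rfl <;> interval_cases r <;> first | omega | (exact absurd h4 (by decide))

/-- if `5 ∣ X` then `d ≡ ±1 mod 5` -/
theorem five_b {X z : ℤ} {d : ℕ} (hd : d % 2 = 1) (hd3 : 3 ≤ d) (hz : 0 < z)
    (h : X ^ 2 = z ^ d + 6) (hX : (5 : ℤ) ∣ X) : d % 5 = 1 ∨ d % 5 = 4 := by
  have h8 := mod_eight hd hd3 h
  obtain ⟨Y, hY⟩ := hX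
  have hz5 : (z : ZMod 5) = -1 := by
    have h5 : ((X : ZMod 5)) ^ 2 = (z : ZMod 5) ^ d + 6 := by
      have := congrArg (fun t : ℤ => (t : ZMod 5)) h
      push_cast at this
      exact this
    have hX0 : (X : ZMod 5) = 0 := by
      rw [hY]; push_cast
      have : (5 : ZMod 5) = 0 := by decide
      rw [this, zero_mul]
    rw [hX0] at h5
    have k : ∀ w : ZMod 5, w = 0 ∨ w ^ 4 = 1 := by decide
    have k1 : ∀ w : ZMod 5, 0 ^ 2 = w + 6 → w = -1 := by decide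
    have h51 := k1 _ h5
    rcases k (z : ZMod 5) with h0 | h0
    · rw [h0, zero_pow (by omega)] at h51
      exact absurd h51 (by decide)
    · have hd4 : d % 4 = 1 ∨ d % 4 = 3 := by omega
      have e : (z : ZMod 5) ^ d = (z : ZMod 5) ^ (d % 4) := by
        conv_lhs => rw [← Nat.div_add_mod d 4, pow_add, pow_mul, h0, one_pow, one_mul]
      rw [e] at h51
      have k3 : ∀ w : ZMod 5, w ^ 3 = -1 → w = -1 := by decide
      rcases hd4 with h6 | h6
      · rw [h6, pow_one] at h51; exact h51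
      · rw [h6] at h51; exact k3 _ h51
  have hz5' : z % 5 = 4 := by
    have h3 : (z : ZMod 5) = ((4 : ℤ) : ZMod 5) := by rw [hz5]; decide
    rw [ZMod.intCast_eq_intCast_iff'] at h3
    exact_mod_cast h3
  obtain ⟨m, hm⟩ : ∃ m : ℕ, z = 20 * m - 1 := ⟨((z + 1) / 20).toNat, by omega⟩
  have hm2 : m % 2 = 1 := by omega
  set B : ℤ := ∑ i ∈ range d, (-z) ^ i with hB
  have hodd : Odd d := Nat.odd_iff.2 hd
  have hgs : B * (z + 1) = z ^ d + 1 := by
    have h0 := geom_sum_mul (-z) d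
    rw [hodd.neg_pow] at h0
    rw [← hB] at h0
    linarith
  have hB5 : ((B : ℤ) : ZMod 5) = (d : ZMod 5) := by
    rw [hB]; push_cast
    rw [hz5]; simp
  have hmain : 5 * Y ^ 2 - 1 = 4 * m * B := by
    have e1 : X ^ 2 = B * (z + 1) + 5 := by rw [hgs, h]; ring
    rw [hY, hm] at e1
    have e2 : 5 * (5 * Y ^ 2 - 1) = 5 * (4 * m * B) := by linarith
    linarith
  have hJ : jacobiSym 5 m = 1 := jac_one (X := Y) (c := 5) ⟨4 * B, by rw [hmain]; ring⟩
  have hq := jacobiSym.quadratic_reciprocity_one_mod_four (a := 5) (b := m) (by norm_num)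
    (Nat.odd_iff.2 hm2)
  have hJ2 : jacobiSym (m : ℤ) 5 = 1 := by
    rw [← hq]
    have : ((5 : ℕ) : ℤ) = 5 := by norm_num
    rw [this, hJ]
  have h3 := res5' hJ2
  have h4 : (4 : ZMod 5) * (m : ZMod 5) * (d : ZMod 5) = 4 := by
    have := congrArg (fun t : ℤ => (t : ZMod 5)) hmain
    push_cast at this
    rw [hB5] at this
    rw [← this]
    have h50 : (5 : ZMod 5) = 0 := by decide
    rw [h50]; ring_nf; decide
  have h5 : ((m % 5 : ℕ) : ZMod 5) = (m : ZMod 5) := ZMod.natCast_mod m 5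
  have h6 : ((d % 5 : ℕ) : ZMod 5) = (d : ZMod 5) := ZMod.natCast_mod d 5
  rw [← h5, ← h6] at h4
  have hd5 : d % 5 < 5 := Nat.mod_lt _ (by norm_num)
  generalize d % 5 = r at *
  generalize m % 5 = s at *
  rcases h3 with rfl | rfl <;> interval_cases r <;> first | omega | (exact absurd h4 (by decide))

end Pool.Agent.SIX
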