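import Pool.Agent.Lib_helper49.SIX.Main

/-!
# `14 ∣ p`: the primes dividing `z ^ 2 - z + 1`, and 43
-/

set_option autoImplicit false

namespace Pool.Agent.SIX

theorem mod_three {X z : ℤ} {d : ℕ} (hd : d % 2 = 1) (hd3 : 3 ≤ d) (h : X ^ 2 = z ^ d + 6) :
    z % 3 = 1 := by
  have h9 : ((X : ZMod 9)) ^ 2 = (z : ZMod 9) ^ d + 6 := by
    have := congrArg (fun t : ℤ => (t : ZMod 9)) h
    push_cast at this
    exact this
  have key : ∀ w : ZMod 9, w ^ 2 = 0 ∨ w ^ 6 = 1 := by decide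
  have k2 : ∀ v : ZMod 9, v ^ 2 ≠ 6 := by decide
  have k1 : ∀ v w : ZMod 9, v ^ 2 = w ^ 1 + 6 → w ^ 6 = 1 → w ^ 3 = 1 := by decide
  have k3 : ∀ v w : ZMod 9, v ^ 2 = w ^ 3 + 6 → w ^ 6 = 1 → w ^ 3 = 1 := by decide
  have k5 : ∀ v w : ZMod 9, v ^ 2 = w ^ 5 + 6 → w ^ 6 = 1 → w ^ 3 = 1 := by decide
  have hz : (z : ZMod 9) ^ 3 = 1 := by
    rcases key (z : ZMod 9) with h1 | h1
    · obtain ⟨k, hk⟩ : ∃ k, d = 2 + k := ⟨d - 2, by omega⟩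
      have e : (z : ZMod 9) ^ d = 0 := by
        rw [hk, pow_add, h1, zero_mul]
      rw [e, zero_add] at h9
      exact absurd h9 (k2 _)
    · have e : (z : ZMod 9) ^ d = (z : ZMod 9) ^ (d % 6) := by
        conv_lhs => rw [← Nat.div_add_mod d 6, pow_add, pow_mul, h1, one_pow, one_mul]
      rw [e] at h9
      have h6 : d % 6 = 1 ∨ d % 6 = 3 ∨ d % 6 = 5 := by omega
      rcases h6 with h6 | h6 | h6 <;> rw [h6] at h9
      · exact k1 _ _ h9 h1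
      · exact k3 _ _ h9 h1
      · exact k5 _ _ h9 h1
  have h91 : ((z ^ 3 : ℤ) : ZMod 9) = ((1 : ℤ) : ZMod 9) := by push_cast; exact hz
  rw [ZMod.intCast_eq_intCast_iff_dvd_sub] at h91
  have h92 : ((z ^ 3 : ℤ) : ZMod 3) = ((1 : ℤ) : ZMod 3) := by
    rw [ZMod.intCast_eq_intCast_iff_dvd_sub]
    exact dvd_trans (by norm_num) h91
  have k : ∀ w : ZMod 3, w ^ 3 = 1 → w = 1 := by decide
  push_cast at h92
  have h93 := k _ h92
  have h3 : (z : ZMod 3) = ((1 : ℤ) : ZMod 3) := by rw [h93]; norm_num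
  rw [ZMod.intCast_eq_intCast_iff'] at h3
  exact_mod_cast h3

/-- `z ^ 2 - z + 1 ∣ z ^ d + z - 1` for `d ≡ 5 mod 6` -/
theorem phi_six (z : ℤ) {d : ℕ} (hd : d % 6 = 5) : z ^ 2 - z + 1 ∣ z ^ d + z - 1 := by
  obtain ⟨k, hk⟩ : ∃ k, d = 6 * k + 5 := ⟨d / 6, by omega⟩
  have h1 : z ^ 6 - 1 ∣ (z ^ 6) ^ k - 1 := by simpa using sub_dvd_pow_sub_pow (z ^ 6) 1 k
  have h2 : z ^ 2 - z + 1 ∣ z ^ 6 - 1 := ⟨(z ^ 2 - 1) * (z ^ 2 + z + 1), by ring⟩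
  obtain ⟨c, hc⟩ := dvd_trans h2 h1
  refine ⟨c * z ^ 5 + (z ^ 3 + z ^ 2 - 1), ?_⟩
  have h3 : z ^ d = (z ^ 6) ^ k * z ^ 5 := by rw [hk, pow_add, pow_mul]
  rw [h3]
  have h4 : (z ^ 6) ^ k = 1 + (z ^ 2 - z + 1) * c := by linarith
  rw [h4]
  ring

/-- `(z - 7 / 43) ≤ 0` for `d ≡ 5 mod 6` -/
theorem ft_a {X z : ℤ} {d : ℕ} (hd : d % 6 = 5) (hz : 0 < z) (h : X ^ 2 = z ^ d + 6) :
    ∃ E : ℕ, z = 4 * E + 7 ∧ jacobiSym (E : ℤ) 43 ≤ 0 := by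
  have h8 := mod_eight (by omega) (by omega) h
  have h3 := mod_three (by omega) (by omega) h
  obtain ⟨E, hE⟩ : ∃ E : ℕ, z = 4 * E + 7 := ⟨((z - 7) / 4).toNat, by omega⟩
  refine ⟨E, hE, ?_⟩
  have hE2 : E % 2 = 1 := by omega
  obtain ⟨m, hm⟩ : ∃ m : ℕ, m = 16 * E ^ 2 + 52 * E + 43 := ⟨_, rfl⟩
  have hzm : (m : ℤ) = z ^ 2 - z + 1 := by rw [hm, hE]; push_cast; ring
  have hm8 : m % 8 = 7 := by
    rw [hm]
    obtain ⟨e, he⟩ : ∃ e, E = 2 * e + 1 := ⟨E / 2, by omega⟩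
    rw [he]
    ring_nf
    omega
  have hdvd : (m : ℤ) ∣ X ^ 2 - (-1) * (2 ^ 2) * E := by
    have e : X ^ 2 - (-1) * (2 ^ 2) * E = z ^ d + z - 1 := by rw [h, hE]; ring
    rw [e, hzm]
    exact phi_six z hd
  have hJ := jac_nonneg hdvd
  have h2m : Int.gcd 2 m = 1 := by
    rw [← Int.isCoprime_iff_gcd_eq_one]
    refine ⟨-((m / 2 : ℕ) : ℤ), 1, ?_⟩
    have : m = 2 * (m / 2) + 1 := by omega
    omega
  rw [jacobiSym.mul_left, jacobiSym.mul_left, jacobiSym.pow_left, jacobiSym.sq_one h2m,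
    jacobiSym.at_neg_one (Nat.odd_iff.2 (by omega)), ZMod.χ₄_nat_three_mod_four (by omega)] at hJ
  have hJE : jacobiSym (E : ℤ) m ≤ 0 := by linarith
  have hmE : (m : ℤ) % E = 43 % E := by
    rw [hm]; push_cast
    have : (16 * (E : ℤ) ^ 2 + 52 * E + 43) = 43 + (E : ℤ) * (16 * E + 52) := by ring
    rw [this, Int.add_mul_emod_self_left]
  have h43 : jacobiSym (m : ℤ) E = jacobiSym (43 : ℤ) E := jacobiSym.mod_left' hmE
  have hE4 : E % 4 = 1 ∨ E % 4 = 3 := by omega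
  rcases hE4 with h4 | h4
  · have q1 := jacobiSym.quadratic_reciprocity_one_mod_four (a := E) (b := m) h4
      (Nat.odd_iff.2 (by omega))
    have q2 := jacobiSym.quadratic_reciprocity_one_mod_four (a := E) (b := 43) h4 (by decide)
    rw [q2]
    rw [q1, h43] at hJE
    exact_mod_cast hJE
  · have q1 := jacobiSym.quadratic_reciprocity_three_mod_four (a := E) (b := m) h4 (by omega)
    have q2 := jacobiSym.quadratic_reciprocity_three_mod_four (a := E) (b := 43) h4 (by norm_num)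
    rw [q2]
    rw [q1, h43] at hJE
    exact_mod_cast hJE

end Pool.Agent.SIX
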