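import Pool.Agent.Lib_helper49.SIX.Core43

set_option autoImplicit false

namespace Pool.Agent.SIX

theorem root43 (w : ZMod 43) (u : ℕ) (hu : u < 42) (h6 : u % 6 = 5) (h7 : u % 7 ≠ 0)
    (h : w ^ u = -6) : w = 7 := by
  have k5 : ∀ w : ZMod 43, w ^ 5 = -6 → w = 7 := by decide
  have k11 : ∀ w : ZMod 43, w ^ 11 = -6 → w = 7 := by decide
  have k17 : ∀ w : ZMod 43, w ^ 17 = -6 → w = 7 := by decide
  have k23 : ∀ w : ZMod 43, w ^ 23 = -6 → w = 7 := by decide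
  have k29 : ∀ w : ZMod 43, w ^ 29 = -6 → w = 7 := by decide
  have k41 : ∀ w : ZMod 43, w ^ 41 = -6 → w = 7 := by decide
  have hu' : u = 5 ∨ u = 11 ∨ u = 17 ∨ u = 23 ∨ u = 29 ∨ u = 41 := by omega
  rcases hu' with rfl | rfl | rfl | rfl | rfl | rfl
  · exact k5 _ h
  · exact k11 _ h
  · exact k17 _ h
  · exact k23 _ h
  · exact k29 _ h
  · exact k41 _ h

/-- powers of `1 + 43 a` mod `43 ^ 2` -/
theorem pow_one_add (a : ℤ) (K : ℤ) (k : ℕ) :
    (1849 : ℤ) ∣ (1 + 43 * a + 1849 * K) ^ k - (1 + 43 * (k * a)) := by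
  induction k with
  | zero => simp
  | succ k ih =>
    obtain ⟨c, hc⟩ := ih
    refine ⟨c * (1 + 43 * a + 1849 * K) + K * (1 + 43 * (k * a)) + k * a ^ 2, ?_⟩
    have h : (1 + 43 * a + 1849 * K) ^ k = (1 + 43 * (k * a)) + 1849 * c := by linarith
    rw [pow_succ, h]
    push_cast
    ring

/-- if `43 ∣ X` and `d ≡ 5 mod 6`, `7 ∤ d`, then `d` is not a square mod 43 -/
theorem ft_b {X z : ℤ} {d : ℕ} (hd : d % 6 = 5) (hd7 : d % 7 ≠ 0) (hz : 0 < z)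
    (h : X ^ 2 = z ^ d + 6) (hX : (43 : ℤ) ∣ X) : jacobiSym (d : ℤ) 43 = -1 := by
  obtain ⟨E, hE, -⟩ := ft_a hd hz h
  have h8 := mod_eight (by omega) (by omega) h
  have hE2 : E % 2 = 1 := by omega
  obtain ⟨Y, hY⟩ := hX
  have hz43 : (z : ZMod 43) = 7 := by
    have h5 : ((X : ZMod 43)) ^ 2 = (z : ZMod 43) ^ d + 6 := by
      have := congrArg (fun t : ℤ => (t : ZMod 43)) h
      push_cast at this
      exact this
    have hX0 : (X : ZMod 43) = 0 := by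
      rw [hY]; push_cast
      have : (43 : ZMod 43) = 0 := by decide
      rw [this, zero_mul]
    rw [hX0] at h5
    have k : ∀ w : ZMod 43, w = 0 ∨ w ^ 42 = 1 := by decide
    have k1 : ∀ w : ZMod 43, 0 ^ 2 = w + 6 → w = -6 := by decide
    have h51 := k1 _ h5
    rcases k (z : ZMod 43) with h0 | h0
    · rw [h0, zero_pow (by omega)] at h51
      exact absurd h51 (by decide)
    · have e : (z : ZMod 43) ^ d = (z : ZMod 43) ^ (d % 42) := by
        conv_lhs => rw [← Nat.div_add_mod d 42, pow_add, pow_mul, h0, one_pow, one_mul]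
      rw [e] at h51
      exact root43 _ (d % 42) (by omega) (by omega) (by omega) h51
  have hz43' : z % 43 = 7 := by
    have h3 : (z : ZMod 43) = ((7 : ℤ) : ZMod 43) := by rw [hz43]; norm_num
    rw [ZMod.intCast_eq_intCast_iff'] at h3
    exact_mod_cast h3
  obtain ⟨F, hF⟩ : ∃ F : ℕ, E = 43 * F := ⟨E / 43, by omega⟩
  have hF2 : F % 2 = 1 := by omega
  have hzF : z = 7 + 43 * (4 * F) := by rw [hE, hF]; push_cast; ring
  obtain ⟨m, hm⟩ : ∃ m : ℕ, m = 688 * F ^ 2 + 52 * F + 1 := ⟨_, rfl⟩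
  have hm4 : m % 4 = 1 := by
    rw [hm]
    have : 688 * F ^ 2 + 52 * F + 1 = 4 * (172 * F ^ 2 + 13 * F) + 1 := by ring
    omega
  have hzm : 43 * (m : ℤ) = z ^ 2 - z + 1 := by rw [hm, hzF]; push_cast; ring
  have hdvd : (m : ℤ) ∣ X ^ 2 - (-1) * (2 ^ 2) * (43 * F) := by
    have e : X ^ 2 - (-1) * (2 ^ 2) * (43 * F) = z ^ d + z - 1 := by rw [h, hzF]; ring
    rw [e]
    exact dvd_trans ⟨43, by rw [← hzm]; ring⟩ (phi_six z hd)
  have hJ := jac_nonneg hdvd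
  have h2m : Int.gcd 2 m = 1 := by
    rw [← Int.isCoprime_iff_gcd_eq_one]
    refine ⟨-((m / 2 : ℕ) : ℤ), 1, ?_⟩
    have : m = 2 * (m / 2) + 1 := by omega
    omega
  rw [jacobiSym.mul_left, jacobiSym.mul_left, jacobiSym.pow_left, jacobiSym.sq_one h2m,
    jacobiSym.at_neg_one (Nat.odd_iff.2 (by omega)), ZMod.χ₄_nat_one_mod_four hm4,
    jacobiSym.mul_left] at hJ
  have hmF : (m : ℤ) % F = 1 % F := by
    rw [hm]; push_cast
    have : (688 * (F : ℤ) ^ 2 + 52 * F + 1) = 1 + (F : ℤ) * (688 * F + 52) := by ring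
    rw [this, Int.add_mul_emod_self_left]
  have hJF : jacobiSym (F : ℤ) m = 1 := by
    have q1 := jacobiSym.quadratic_reciprocity_one_mod_four (a := m) (b := F) hm4
      (Nat.odd_iff.2 hF2)
    rw [← q1, jacobiSym.mod_left' hmF, jacobiSym.one_left]
  have q2 := jacobiSym.quadratic_reciprocity_one_mod_four (a := m) (b := 43) hm4 (by decide)
  have hJm : 0 ≤ jacobiSym (m : ℤ) 43 := by
    rw [q2]
    rw [hJF] at hJ
    have : ((43 : ℕ) : ℤ) = 43 := by norm_num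
    rw [this]
    linarith
  -- the expansion mod `43 ^ 2`
  obtain ⟨k, hk⟩ : ∃ k, d = 6 * k + 5 := ⟨d / 6, by omega⟩
  obtain ⟨w, hw⟩ : ∃ w : ℤ, w = 4 * F := ⟨_, rfl⟩
  have hzw : z = 7 + 43 * w := by rw [hw, hzF]
  have hz6 : z ^ 6 = 1 + 43 * (27 - 36 * w) + 1849 * (63 + 2346 * w + 36015 * w ^ 2
      + 294980 * w ^ 3 + 1359015 * w ^ 4 + 3339294 * w ^ 5 + 3418801 * w ^ 6) := by
    rw [hzw]; ring
  have hz5 : z ^ 5 = -6 + 43 * (4 + 180 * w) + 1849 * (9 + 275 * w + 3430 * w ^ 2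
      + 21070 * w ^ 3 + 64715 * w ^ 4 + 79507 * w ^ 5) := by
    rw [hzw]; ring
  obtain ⟨c, hc⟩ := pow_one_add (27 - 36 * w) (63 + 2346 * w + 36015 * w ^ 2
      + 294980 * w ^ 3 + 1359015 * w ^ 4 + 3339294 * w ^ 5 + 3418801 * w ^ 6) k
  rw [← hz6] at hc
  have hzd : z ^ d = (z ^ 6) ^ k * z ^ 5 := by rw [hk, pow_add, pow_mul]
  set K2 : ℤ := 9 + 275 * w + 3430 * w ^ 2 + 21070 * w ^ 3 + 64715 * w ^ 4 + 79507 * w ^ 5 with hK2
  have hG : (43 : ℤ) ∣ 4 + 180 * w - 162 * k + 216 * k * w := by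
    have e1 : (z ^ 6) ^ k = (1 + 43 * (k * (27 - 36 * w))) + 1849 * c := by linarith
    have e2 : X ^ 2 = ((1 + 43 * (k * (27 - 36 * w))) + 1849 * c) *
        (-6 + 43 * (4 + 180 * w) + 1849 * K2) + 6 := by rw [h, hzd, e1, hz5]
    rw [hY] at e2
    refine ⟨Y ^ 2 - (c * (-6 + 43 * (4 + 180 * w) + 1849 * K2) +
      (1 + 43 * (k * (27 - 36 * w))) * K2 + (k * (27 - 36 * w)) * (4 + 180 * w)), ?_⟩
    have e3 : (43 : ℤ) * (4 + 180 * w - 162 * k + 216 * k * w) = 43 * (43 * (Y ^ 2 -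
      (c * (-6 + 43 * (4 + 180 * w) + 1849 * K2) +
      (1 + 43 * (k * (27 - 36 * w))) * K2 + (k * (27 - 36 * w)) * (4 + 180 * w)))) := by
      linear_combination -e2
    linarith
  have hfin : (36 * (d : ℤ) * m) % ((43 : ℕ) : ℤ) = (-1) % ((43 : ℕ) : ℤ) := by
    obtain ⟨g, hg⟩ := hG
    apply Int.modEq_iff_dvd.2
    refine ⟨-(13 * g + (576 * (6 * k + 5) * (F : ℤ) ^ 2 + 54 * k + 3)), ?_⟩
    rw [hk, hm]
    push_cast
    rw [hw] at hg
    linear_combination -13 * hg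
  have hJ3 := jacobiSym.mod_left' hfin
  rw [jacobiSym.mul_left, jacobiSym.mul_left] at hJ3
  have j36 : jacobiSym 36 43 = 1 := by norm_num
  have jm1 : jacobiSym (-1) 43 = -1 := by norm_num
  rw [j36, jm1, one_mul] at hJ3
  rcases jacobiSym.trichotomy (d : ℤ) 43 with h4 | h4 | h4
  · rw [h4] at hJ3; norm_num at hJ3
  · rw [h4] at hJ3; linarith
  · exact h4

end Pool.Agent.SIX
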