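import Pool.Agent.Lib_helper49.SIX.Sixteen

set_option autoImplicit false

namespace Pool.Agent.SIX

/-- the case that a part `N1` of `1679617` divides `X` -/
theorem deg {X z : ℤ} {d N1 N2 : ℕ} (hN : N1 * N2 = 1679617) (h1 : N1 % 8 = 1) (h2 : N2 % 4 = 1)
    (hd : d % 16 = 9) (hz : 0 < z) (h : X ^ 2 = z ^ d + 6) (hz1 : (N1 : ℤ) ∣ z - 6)
    (hX : (N1 : ℤ) ∣ X) : jacobiSym (d : ℤ) N1 * jacobiSym (z - 6) N2 ≤ 0 := by
  have h8 := mod_eight (by omega) (by omega) h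
  have h3 := mod_three (by omega) (by omega) h
  obtain ⟨m, hm, hm16⟩ := exists_m hz h8
  obtain ⟨A', hA'⟩ := hz1
  have hN1 : (0 : ℤ) < N1 := by
    have : 0 < N1 := by omega
    exact_mod_cast this
  have hA0 : 0 < A' := by
    by_contra hc
    have := mul_nonpos_of_nonneg_of_nonpos hN1.le (not_lt.1 hc)
    omega
  obtain ⟨A, hA⟩ : ∃ A : ℕ, A' = A := ⟨A'.toNat, by omega⟩
  rw [hA] at hA'
  obtain ⟨n, hn⟩ : ∃ n : ℕ, N1 = 8 * n + 1 := ⟨N1 / 8, by omega⟩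
  have hA8 : A % 8 = 5 := by
    have e : (N1 : ℤ) * A = 8 * (n * A) + A := by rw [hn]; push_cast; ring
    rw [e] at hA'
    omega
  set Q : ℤ := z ^ 7 + 6 * z ^ 6 + 36 * z ^ 5 + 216 * z ^ 4 + 1296 * z ^ 3 + 7776 * z ^ 2
      + 46656 * z + 279936 with hQ
  have hNz : (N1 : ℤ) * N2 = 1679617 := by exact_mod_cast hN
  have hm2 : 2 * (m : ℤ) = N1 * (N2 + A * Q) := by
    have e : z ^ 8 + 1 = 1679617 + (z - 6) * Q := by rw [hQ]; ring
    rw [hm, e, hA', ← hNz]; ring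
  have hco2 : IsCoprime (N1 : ℤ) 2 := ⟨1, -(4 * n), by rw [hn]; push_cast; ring⟩
  have hdm : (N1 : ℤ) ∣ (m : ℤ) := hco2.dvd_of_dvd_mul_left ⟨_, hm2⟩
  obtain ⟨m1, hm1⟩ := Int.natCast_dvd_natCast.1 hdm
  have hm18 : m1 % 8 = 1 := by
    have e : N1 * m1 = 8 * (n * m1) + m1 := by rw [hn]; ring
    rw [e] at hm1
    omega
  have hm1' : 2 * (m1 : ℤ) = N2 + A * Q := by
    have e : (N1 : ℤ) * (2 * m1) = N1 * (N2 + A * Q) := by
      rw [← hm2, hm1]; push_cast; ring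
    exact mul_left_cancel₀ hN1.ne' e
  -- the symbol at `m1`
  have hdvd : (m1 : ℤ) ∣ X ^ 2 - (-((N1 : ℤ) * A)) := by
    have e : X ^ 2 - (-((N1 : ℤ) * A)) = z ^ d + z := by rw [h, ← hA']; ring
    rw [e]
    exact dvd_trans ⟨2 * N1, by rw [← hm, hm1]; push_cast; ring⟩ (phi9 z hd)
  have hJ := jac_nonneg hdvd
  rw [neg_left (by omega), jacobiSym.mul_left] at hJ
  have q1 := jacobiSym.quadratic_reciprocity_one_mod_four (a := m1) (b := A) (by omega)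
    (Nat.odd_iff.2 (by omega))
  have q2 := jacobiSym.quadratic_reciprocity_one_mod_four (a := m1) (b := N1) (by omega)
    (Nat.odd_iff.2 (by omega))
  have q3 := jacobiSym.quadratic_reciprocity_one_mod_four (a := N2) (b := A) h2
    (Nat.odd_iff.2 (by omega))
  have q4 := jacobiSym.quadratic_reciprocity_one_mod_four (a := N1) (b := N2) (by omega)
    (Nat.odd_iff.2 (by omega))
  have hmod : (2 * (m1 : ℤ)) % A = (N2 : ℤ) % A := by
    apply Int.modEq_iff_dvd.2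
    exact ⟨-Q, by rw [hm1']; ring⟩
  have e2 := jacobiSym.mod_left' hmod
  rw [jacobiSym.mul_left, chi_five hA8, q1, q3] at e2
  -- the `N1`-adic relation
  obtain ⟨k, hk⟩ : ∃ k, d = 16 * k + 9 := ⟨d / 16, by omega⟩
  obtain ⟨Y, hY⟩ := hX
  have hz8 : z ^ 8 = 2 * (N1 * m1) - 1 := by
    have : z ^ 8 + 1 = 2 * (N1 * m1) := by rw [← hm, hm1]; push_cast; ring
    linarith
  have hz16 : z ^ 16 = 1 + N1 * (-4 * m1) + (N1 : ℤ) ^ 2 * (4 * m1 ^ 2) := by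
    have : z ^ 16 = (z ^ 8) ^ 2 := by ring
    rw [this, hz8]; ring
  obtain ⟨c, hc⟩ := pow_one_add' (N1 : ℤ) (-4 * m1) (4 * m1 ^ 2) k
  rw [← hz16] at hc
  have hzd : z ^ d = (z ^ 16) ^ k * (z ^ 8 * z) := by
    rw [hk, pow_add, pow_mul]; ring
  have hz6 : z = 6 + N1 * A := by linarith
  have hS : (N1 : ℤ) ∣ -A + 6 * (4 * k + 2) * m1 := by
    have e1 : (z ^ 16) ^ k = (1 + N1 * (k * (-4 * m1))) + (N1 : ℤ) ^ 2 * c := by linarith
    have e3 : X ^ 2 = ((1 + N1 * (k * (-4 * m1))) + (N1 : ℤ) ^ 2 * c) *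
        ((2 * (N1 * m1) - 1) * z) + 6 := by rw [h, hzd, e1, hz8]
    rw [hY] at e3
    refine ⟨Y ^ 2 - c * z * (2 * N1 * m1 - 1) + 8 * k * m1 ^ 2 * z - (4 * k + 2) * m1 * A, ?_⟩
    apply mul_left_cancel₀ hN1.ne'
    linear_combination -e3 + (1 - (4 * k + 2) * m1 * N1) * hz6
  obtain ⟨g, hg⟩ := hS
  set Q2 : ℤ := z ^ 6 + 12 * z ^ 5 + 108 * z ^ 4 + 864 * z ^ 3 + 6480 * z ^ 2 + 46656 * z
      + 326592 with hQ2
  have hQQ : Q = 2239488 + (z - 6) * Q2 := by rw [hQ, hQ2]; ring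
  have hfin6 : 6 * (2 * (d : ℤ) * m1 - N2) = N1 * (8 * g + A * (8 * N2 + 6 * A * Q2)) := by
    have e4 : 6 * (2 * (m1 : ℤ) - N2) = A * (8 * (N1 * N2) - 8 + 6 * (N1 * A) * Q2) := by
      rw [hm1', hQQ, hA', hNz]; ring
    rw [hk]; push_cast
    linear_combination e4 + 8 * hg
  have hco6 : IsCoprime (N1 : ℤ) 6 := ⟨N2, -279936, by linarith⟩
  have hdf : (N1 : ℤ) ∣ 2 * (d : ℤ) * m1 - N2 := hco6.dvd_of_dvd_mul_left ⟨_, hfin6⟩
  have hmod2 : (2 * (d : ℤ) * m1) % N1 = (N2 : ℤ) % N1 := by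
    apply Int.modEq_iff_dvd.2
    rw [← dvd_neg]; simpa using hdf
  have e5 := jacobiSym.mod_left' hmod2
  rw [jacobiSym.mul_left, jacobiSym.mul_left, chi_one h1, one_mul] at e5
  rw [hA', jacobiSym.mul_left, q4, ← e5]
  rw [← q2] at hJ
  have e6 : jacobiSym (A : ℤ) N2 = - jacobiSym (A : ℤ) m1 := by linarith
  rw [e6]
  have := mul_nonneg (sq_nonneg (jacobiSym (d : ℤ) N1)) hJ
  nlinarith

end Pool.Agent.SIX
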