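import Pool.Agent.Lib_helper31.PQ.AP

/-!
# Almost every integer has a prime factor in a given reduced residue class
-/

set_option autoImplicit false

namespace Pool.Agent.SIX

open Finset Filter Topology

/-- the number of `q < N` without a prime factor `≡ a mod m` -/
noncomputable def free (m a N : ℕ) : Finset ℕ := by
  classical
  exact (range N).filter (fun q => ∀ r : ℕ, r.Prime → r % m = a % m → ¬ r ∣ q)

theorem free_le (m a N : ℕ) (S : Finset ℕ) (hS : ∀ p ∈ S, p.Prime ∧ p % m = a % m) :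
    ((free m a N).card : ℝ) ≤ (N : ℝ) * Real.exp (-∑ p ∈ S, (1 : ℝ) / p) + (∏ p ∈ S, p).totient := by
  classical
  set P : ℕ := ∏ p ∈ S, p with hP
  have hP0 : P ≠ 0 := by
    rw [hP]
    exact Finset.prod_ne_zero_iff.2 (fun p hp => (hS p hp).1.ne_zero)
  have hsub : free m a N ⊆ (Ico 0 (0 + N)).filter (fun q => P.Coprime q) := by
    intro q hq
    unfold free at hq
    rw [mem_filter, mem_range] at hq
    rw [mem_filter, mem_Ico]
    refine ⟨⟨Nat.zero_le _, by omega⟩, ?_⟩
    rw [hP]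
    apply Nat.Coprime.prod_left
    intro p hp
    rw [(hS p hp).1.coprime_iff_not_dvd]
    exact hq.2 p (hS p hp).1 (hS p hp).2
  have h1 := Finset.card_le_card hsub
  have h2 := Nat.Ico_filter_coprime_le (a := P) 0 N hP0
  have h3 : ((free m a N).card : ℝ) ≤ (P.totient : ℝ) * ((N / P : ℕ) + 1) := by
    exact_mod_cast le_trans h1 h2
  have hPpos : (0 : ℝ) < P := by exact_mod_cast Nat.pos_of_ne_zero hP0
  have h4 : ((N / P : ℕ) : ℝ) ≤ (N : ℝ) / P := Nat.cast_div_le
  have h5 : (P.totient : ℝ) / P ≤ Real.exp (-∑ p ∈ S, (1 : ℝ) / p) := by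
    have e1 := Nat.totient_eq_mul_prod_factors P
    have e2 : P.primeFactors = S := Nat.primeFactors_prod (fun p hp => (hS p hp).1)
    rw [e2] at e1
    have e3 : (P.totient : ℝ) = P * ∏ p ∈ S, (1 - (p : ℝ)⁻¹) := by
      have := congrArg (fun t : ℚ => (t : ℝ)) e1
      push_cast at this
      exact this
    rw [e3, mul_div_assoc, mul_comm, div_mul_cancel₀ _ hPpos.ne', ← Finset.sum_neg_distrib,
      Real.exp_sum]
    apply Finset.prod_le_prod
    · intro p hp
      have : (1 : ℝ) ≤ p := by exact_mod_cast (hS p hp).1.one_lt.le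
      have := inv_le_one_of_one_le₀ this
      linarith
    · intro p hp
      have := Real.add_one_le_exp (-((1 : ℝ) / p))
      rw [one_div] at *
      linarith
  calc ((free m a N).card : ℝ) ≤ (P.totient : ℝ) * ((N / P : ℕ) + 1) := h3
    _ ≤ (P.totient : ℝ) * ((N : ℝ) / P + 1) := by gcongr
    _ = (N : ℝ) * ((P.totient : ℝ) / P) + P.totient := by field_simp
    _ ≤ _ := by gcongr

theorem dens (m a : ℕ) (hm : 1 ≤ m) (ha : Nat.Coprime a m) :
    Tendsto (fun N : ℕ => ((free m a N).card : ℝ) / N) atTop (𝓝 0) := by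
  classical
  obtain ⟨c, hc, x₀, hx₀⟩ := Pool.Agent.PQ.inv_ap m hm a ha
  rw [Metric.tendsto_atTop]
  intro ε hε
  have ht : Tendsto (fun x : ℕ => Real.exp (-(c * Real.log (Real.log x)))) atTop (𝓝 0) :=
    Real.tendsto_exp_neg_atTop_nhds_zero.comp
      ((Real.tendsto_log_atTop.comp (Real.tendsto_log_atTop.comp
        tendsto_natCast_atTop_atTop)).const_mul_atTop hc)
  obtain ⟨x, hx1, hx2⟩ := ((ht.eventually_lt_const (show (0 : ℝ) < ε / 2 by positivity)).and
    (eventually_ge_atTop x₀)).exists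
  set S : Finset ℕ := (Pool.Agent.PQ.prm x).filter (fun p => p % m = a % m) with hS
  have hS' : ∀ p ∈ S, p.Prime ∧ p % m = a % m := by
    intro p hp
    rw [hS, mem_filter] at hp
    unfold Pool.Agent.PQ.prm at hp
    rw [mem_filter] at hp
    exact ⟨hp.1.2, hp.2⟩
  have h1 := hx₀ x hx2
  set T : ℝ := ((∏ p ∈ S, p).totient : ℝ) with hT
  have hT0 : 0 ≤ T := by positivity
  obtain ⟨N₀, hN₀⟩ := exists_nat_gt (2 * T / ε)
  refine ⟨N₀ + 1, fun N hN => ?_⟩
  have hNpos : (0 : ℝ) < N := by exact_mod_cast (by omega : 0 < N)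
  rw [Real.dist_eq, sub_zero, abs_of_nonneg (by positivity), div_lt_iff₀ hNpos]
  have h2 := free_le m a N S hS'
  have h3 : Real.exp (-∑ p ∈ S, (1 : ℝ) / p) < ε / 2 := by
    refine lt_of_le_of_lt (Real.exp_le_exp.2 ?_) hx1
    linarith
  have h4 : T < ε / 2 * N := by
    have : (N₀ : ℝ) + 1 ≤ N := by exact_mod_cast hN
    have h5 : 2 * T / ε < N := by linarith
    rw [div_lt_iff₀ hε] at h5
    linarith
  have h6 : (N : ℝ) * Real.exp (-∑ p ∈ S, (1 : ℝ) / p) ≤ N * (ε / 2) := by gcongr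
  linarith

end Pool.Agent.SIX

namespace Pool.Agent.SIX

open Finset Filter Topology

/-- a set each element of which misses one of finitely many reduced classes has density 0 -/
theorem dens_of (s : Finset (ℕ × ℕ)) (hs : ∀ i ∈ s, 1 ≤ i.1 ∧ Nat.Coprime i.2 i.1) (E : ℕ → Prop)
    (hE : ∀ q, E q → ∃ i ∈ s, ∀ r : ℕ, r.Prime → r % i.1 = i.2 % i.1 → ¬ r ∣ q) :
    Tendsto (fun N : ℕ => (({q : ℕ | q < N ∧ E q}.ncard : ℕ) : ℝ) / N) atTop (𝓝 0) := by
  classical
  have h1 : Tendsto (fun N : ℕ => ∑ i ∈ s, ((free i.1 i.2 N).card : ℝ) / N) atTop (𝓝 0) := by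
    have := tendsto_finset_sum s (fun i hi => dens i.1 i.2 (hs i hi).1 (hs i hi).2)
    simpa using this
  refine squeeze_zero (fun N => by positivity) (fun N => ?_) h1
  rw [← Finset.sum_div]
  apply div_le_div_of_nonneg_right _ (Nat.cast_nonneg N)
  have hsub : {q : ℕ | q < N ∧ E q} ⊆ ((s.biUnion (fun i => free i.1 i.2 N) : Finset ℕ) : Set ℕ) := by
    intro q hq
    obtain ⟨i, hi, h⟩ := hE q hq.2
    rw [Finset.mem_coe, Finset.mem_biUnion]
    refine ⟨i, hi, ?_⟩
    unfold free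
    rw [mem_filter, mem_range]
    exact ⟨hq.1, h⟩
  have h2 := Set.ncard_le_ncard hsub (Finset.finite_toSet _)
  rw [Set.ncard_coe_finset] at h2
  have h3 := le_trans h2 (Finset.card_biUnion_le)
  exact_mod_cast h3

end Pool.Agent.SIX
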