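import Pool.Agent.Lib_helper49.SIX.Fourteen

/-!
# `8 ∣ p`: the primes dividing `z ^ 4 + 1`, and 1297
-/

set_option autoImplicit false

namespace Pool.Agent.SIX

instance fact1297 : Fact (Nat.Prime 1297) := ⟨by norm_num⟩

theorem chi_five {C : ℕ} (h : C % 8 = 5) : jacobiSym 2 C = -1 := by
  rw [jacobiSym.at_two (Nat.odd_iff.2 (by omega)), ZMod.χ₈_nat_eq_if_mod_eight]
  rw [if_neg (by omega), if_neg (by omega)]

/-- `z ^ 4 + 1 ∣ z ^ d + z` for `d ≡ 5 mod 8` -/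
theorem phi_eight (z : ℤ) {d : ℕ} (hd : d % 8 = 5) : z ^ 4 + 1 ∣ z ^ d + z := by
  obtain ⟨k, hk⟩ : ∃ k, d = 4 * (2 * k + 1) + 1 := ⟨d / 8, by omega⟩
  have hodd : Odd (2 * k + 1) := ⟨k, rfl⟩
  have h1 : z ^ 4 + 1 ∣ (z ^ 4) ^ (2 * k + 1) + 1 := by
    simpa using hodd.add_dvd_pow_add_pow (z ^ 4) 1
  have h2 : z ^ d + z = ((z ^ 4) ^ (2 * k + 1) + 1) * z := by
    rw [hk, pow_succ, pow_mul]; ring
  rw [h2]
  exact dvd_mul_of_dvd_left h1 z

/-- `(z - 6 / 1297) ≤ 0` for `d ≡ 5 mod 8` -/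
theorem tn_a {X z : ℤ} {d : ℕ} (hd : d % 8 = 5) (hz : 0 < z) (h : X ^ 2 = z ^ d + 6) :
    ∃ C : ℕ, z = C + 6 ∧ C % 8 = 5 ∧ jacobiSym (C : ℤ) 1297 ≤ 0 := by
  have h8 := mod_eight (by omega) (by omega) h
  have h3 := mod_three (by omega) (by omega) h
  obtain ⟨t, ht⟩ : ∃ t : ℕ, z = 8 * t + 11 := ⟨((z - 11) / 8).toNat, by omega⟩
  obtain ⟨C, hC⟩ : ∃ C : ℕ, C = 8 * t + 5 := ⟨_, rfl⟩
  have hC8 : C % 8 = 5 := by omega
  have hzC : z = C + 6 := by rw [hC, ht]; push_cast; ring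
  refine ⟨C, hzC, hC8, ?_⟩
  obtain ⟨m, hm⟩ : ∃ m : ℕ, m = 2048 * t ^ 4 + 11264 * t ^ 3 + 23232 * t ^ 2 + 21296 * t + 7321 :=
    ⟨_, rfl⟩
  have hzm : 2 * (m : ℤ) = z ^ 4 + 1 := by rw [hm, ht]; push_cast; ring
  have hm4 : m % 4 = 1 := by
    rw [hm]
    have : 2048 * t ^ 4 + 11264 * t ^ 3 + 23232 * t ^ 2 + 21296 * t + 7321 =
      4 * (512 * t ^ 4 + 2816 * t ^ 3 + 5808 * t ^ 2 + 5324 * t + 1830) + 1 := by ring
    omega
  have hdvd : (m : ℤ) ∣ X ^ 2 - (-1) * C := by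
    have e : X ^ 2 - (-1) * (C : ℤ) = z ^ d + z := by rw [h, hzC]; ring
    rw [e]
    exact dvd_trans ⟨2, by rw [← hzm]; ring⟩ (phi_eight z hd)
  have hJ := jac_nonneg hdvd
  rw [jacobiSym.mul_left, jacobiSym.at_neg_one (Nat.odd_iff.2 (by omega)),
    ZMod.χ₄_nat_one_mod_four hm4, one_mul] at hJ
  have q1 := jacobiSym.quadratic_reciprocity_one_mod_four (a := m) (b := C) hm4
    (Nat.odd_iff.2 (by omega))
  have q2 := jacobiSym.quadratic_reciprocity_one_mod_four (a := 1297) (b := C) (by norm_num)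
    (Nat.odd_iff.2 (by omega))
  have hmod : (2 * (m : ℤ)) % C = ((1297 : ℕ) : ℤ) % C := by
    have : 2 * (m : ℤ) = ((1297 : ℕ) : ℤ) + C * (C ^ 3 + 24 * C ^ 2 + 216 * C + 864) := by
      rw [hzm, hzC]; push_cast; ring
    rw [this, Int.add_mul_emod_self_left]
  have h2 := jacobiSym.mod_left' hmod
  rw [jacobiSym.mul_left, chi_five hC8, q2, q1] at h2
  linarith

/-- powers of `1 + l a` mod `l ^ 2` -/
theorem pow_one_add' (l a K : ℤ) (k : ℕ) :
    l ^ 2 ∣ (1 + l * a + l ^ 2 * K) ^ k - (1 + l * (k * a)) := by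
  induction k with
  | zero => simp
  | succ k ih =>
    obtain ⟨c, hc⟩ := ih
    refine ⟨c * (1 + l * a + l ^ 2 * K) + K * (1 + l * (k * a)) + k * a ^ 2, ?_⟩
    have h : (1 + l * a + l ^ 2 * K) ^ k = (1 + l * (k * a)) + l ^ 2 * c := by linarith
    rw [pow_succ, h]
    push_cast
    ring

/-- a power with exponent prime to `1296` is invertible mod 1297 -/
theorem inv_pow {z v : ZMod 1297} {d u' : ℕ} (hd : d * u' % 1296 = 1) (h : z ^ d = v) :
    z = v ^ u' := by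
  have hd0 : d ≠ 0 := by rintro rfl; simp at hd
  have hu0 : u' ≠ 0 := by rintro rfl; simp at hd
  rcases eq_or_ne z 0 with h0 | h0
  · subst h0
    rw [zero_pow hd0] at h
    rw [← h, zero_pow hu0]
  · have h1 : z ^ 1296 = 1 := ZMod.pow_card_sub_one_eq_one h0
    rw [← h, ← pow_mul]
    conv_rhs => rw [← Nat.div_add_mod (d * u') 1296, pow_add, pow_mul, h1, one_pow, one_mul, hd,
      pow_one]

/-- if `1297 ∣ X` and `d ≡ 5 mod 8`, `3 ∤ d`, then `d` is not a square mod 1297 -/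
theorem tn_b {X z : ℤ} {d : ℕ} (hd : d % 8 = 5) (hd3 : d % 3 ≠ 0) (hz : 0 < z)
    (h : X ^ 2 = z ^ d + 6) (hX : (1297 : ℤ) ∣ X) : jacobiSym (d : ℤ) 1297 = -1 := by
  obtain ⟨C, hC, hC8, -⟩ := tn_a hd hz h
  obtain ⟨Y, hY⟩ := hX
  have hz0 : (z : ZMod 1297) = 6 := by
    have h5 : ((X : ZMod 1297)) ^ 2 = (z : ZMod 1297) ^ d + 6 := by
      have := congrArg (fun t : ℤ => (t : ZMod 1297)) h
      push_cast at this
      exact this
    have hX0 : (X : ZMod 1297) = 0 := by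
      rw [hY]; push_cast
      have : (1297 : ZMod 1297) = 0 := by decide
      rw [this, zero_mul]
    rw [hX0] at h5
    have h51 : (z : ZMod 1297) ^ d = -6 := by linear_combination -h5
    have hco : Nat.Coprime d 1296 := by
      have h1 : Nat.Coprime d 2 := by
        rw [Nat.coprime_comm, Nat.Prime.coprime_iff_not_dvd Nat.prime_two]; omega
      have h2 : Nat.Coprime d 3 := by
        rw [Nat.coprime_comm, Nat.Prime.coprime_iff_not_dvd Nat.prime_three]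
        omega
      have : (1296 : ℕ) = 2 ^ 4 * 3 ^ 4 := by norm_num
      rw [this]
      exact (h1.pow_right 4).mul_right (h2.pow_right 4)
    obtain ⟨u', -, hu'⟩ := Nat.exists_mul_mod_eq_one_of_coprime hco (by norm_num)
    have h6 := inv_pow hu' h51
    have hu8 : u' % 8 = 5 := by
      have h7 : d * u' % 8 = 1 := by
        rw [← Nat.mod_mod_of_dvd (d * u') (show 8 ∣ 1296 by norm_num), hu']
      rw [Nat.mul_mod, hd] at h7
      have : u' % 8 < 8 := Nat.mod_lt _ (by norm_num)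
      generalize u' % 8 = r at h7 this ⊢
      interval_cases r <;> omega
    have h8 : ((-6 : ZMod 1297)) ^ 8 = 1 := by decide +kernel
    rw [h6]
    conv_lhs => rw [← Nat.div_add_mod u' 8, pow_add, pow_mul, h8, one_pow, one_mul, hu8]
    decide +kernel
  have hz' : z % 1297 = 6 := by
    have h3 : (z : ZMod 1297) = ((6 : ℤ) : ZMod 1297) := by rw [hz0]; norm_num
    rw [ZMod.intCast_eq_intCast_iff'] at h3
    exact_mod_cast h3
  obtain ⟨A, hA⟩ : ∃ A : ℕ, C = 1297 * A := ⟨C / 1297, by omega⟩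
  have hA8 : A % 8 = 5 := by omega
  have hzA : z = 6 + 1297 * A := by rw [hC, hA]; push_cast; ring
  obtain ⟨t, ht⟩ : ∃ t : ℕ, A = 8 * t + 5 := ⟨A / 8, by omega⟩
  obtain ⟨m, hm⟩ : ∃ m : ℕ, m = 4468377749504 * t ^ 4 + 11181279865856 * t ^ 3
    + 10492148362944 * t ^ 2 + 4375773260336 * t + 684347152873 := ⟨_, rfl⟩
  have hzm : 1297 * (2 * (m : ℤ)) = z ^ 4 + 1 := by rw [hm, hzA, ht]; push_cast; ring
  have hMA : 2 * (m : ℤ) = 1 + 864 * A + 280152 * A ^ 2 + 40373016 * A ^ 3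
      + 2181825073 * A ^ 4 := by rw [hm, ht]; push_cast; ring
  have hm4 : m % 4 = 1 := by
    rw [hm]
    have : 4468377749504 * t ^ 4 + 11181279865856 * t ^ 3
      + 10492148362944 * t ^ 2 + 4375773260336 * t + 684347152873 =
      4 * (1117094437376 * t ^ 4 + 2795319966464 * t ^ 3 + 2623037090736 * t ^ 2
        + 1093943315084 * t + 171086788218) + 1 := by ring
    omega
  have hdvd : (m : ℤ) ∣ X ^ 2 - (-1) * (((1297 : ℕ) : ℤ) * A) := by
    have e : X ^ 2 - (-1) * (((1297 : ℕ) : ℤ) * A) = z ^ d + z := by rw [h, hzA]; push_cast; ring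
    rw [e]
    exact dvd_trans ⟨1297 * 2, by rw [← hzm]; ring⟩ (phi_eight z hd)
  have hJ := jac_nonneg hdvd
  rw [jacobiSym.mul_left, jacobiSym.at_neg_one (Nat.odd_iff.2 (by omega)),
    ZMod.χ₄_nat_one_mod_four hm4, one_mul, jacobiSym.mul_left] at hJ
  have q1 := jacobiSym.quadratic_reciprocity_one_mod_four (a := m) (b := A) hm4
    (Nat.odd_iff.2 (by omega))
  have q2 := jacobiSym.quadratic_reciprocity_one_mod_four (a := m) (b := 1297) hm4 (by decide)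
  have hmod : (2 * (m : ℤ)) % A = 1 % A := by
    have : 2 * (m : ℤ) = 1 + A * (864 + 280152 * A + 40373016 * A ^ 2 + 2181825073 * A ^ 3) := by
      rw [hMA]; ring
    rw [this, Int.add_mul_emod_self_left]
  have h2 := jacobiSym.mod_left' hmod
  rw [jacobiSym.mul_left, chi_five hA8, q1, jacobiSym.one_left] at h2
  have hJA : jacobiSym (A : ℤ) m = -1 := by linarith
  have hJm : jacobiSym (m : ℤ) 1297 ≤ 0 := by
    rw [q2]
    rw [hJA] at hJ
    linarith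
  -- the expansion mod `1297 ^ 2`
  obtain ⟨k, hk⟩ : ∃ k, d = 8 * k + 5 := ⟨d / 8, by omega⟩
  obtain ⟨a, ha⟩ : ∃ a : ℤ, a = A := ⟨_, rfl⟩
  have hza : z = 6 + 1297 * a := by rw [ha, hzA]
  have hz8 : z ^ 8 = 1 + 1297 * (-2 - 431 * a) + 1297 ^ 2 * (1 + 1727 * a + 1306368 * a ^ 2
      + 564786432 * a ^ 3 + 152610000480 * a ^ 4 + 26391356083008 * a ^ 5
      + 2852465736638448 * a ^ 6 + 176173717162860336 * a ^ 7 + 4760360649171455329 * a ^ 8) := by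
    rw [hza]; ring
  have hz5 : z ^ 5 = -6 + 1297 * (6 - 5 * a) + 1297 ^ 2 * (5 * a + 2160 * a ^ 2 + 466920 * a ^ 3
      + 50466270 * a ^ 4 + 2181825073 * a ^ 5) := by
    rw [hza]; ring
  obtain ⟨c, hc⟩ := pow_one_add' 1297 (-2 - 431 * a) (1 + 1727 * a + 1306368 * a ^ 2
      + 564786432 * a ^ 3 + 152610000480 * a ^ 4 + 26391356083008 * a ^ 5
      + 2852465736638448 * a ^ 6 + 176173717162860336 * a ^ 7 + 4760360649171455329 * a ^ 8) k
  rw [← hz8] at hc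
  have hzd : z ^ d = (z ^ 8) ^ k * z ^ 5 := by rw [hk, pow_add, pow_mul]
  obtain ⟨K2, hK2⟩ : ∃ K2 : ℤ, K2 = 5 * a + 2160 * a ^ 2 + 466920 * a ^ 3
      + 50466270 * a ^ 4 + 2181825073 * a ^ 5 := ⟨_, rfl⟩
  rw [← hK2] at hz5
  have hG : (1297 : ℤ) ∣ 6 - 5 * a + 12 * k + 2586 * k * a := by
    have e1 : (z ^ 8) ^ k = (1 + 1297 * (k * (-2 - 431 * a))) + 1297 ^ 2 * c := by linarith
    have e2 : X ^ 2 = ((1 + 1297 * (k * (-2 - 431 * a))) + 1297 ^ 2 * c) *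
        (-6 + 1297 * (6 - 5 * a) + 1297 ^ 2 * K2) + 6 := by rw [h, hzd, e1, hz5]
    rw [hY] at e2
    refine ⟨Y ^ 2 - (c * (-6 + 1297 * (6 - 5 * a) + 1297 ^ 2 * K2) +
      (1 + 1297 * (k * (-2 - 431 * a))) * K2 + (k * (-2 - 431 * a)) * (6 - 5 * a)), ?_⟩
    have e3 : (1297 : ℤ) * (6 - 5 * a + 12 * k + 2586 * k * a) = 1297 * (1297 * (Y ^ 2 -
      (c * (-6 + 1297 * (6 - 5 * a) + 1297 ^ 2 * K2) +
      (1 + 1297 * (k * (-2 - 431 * a))) * K2 + (k * (-2 - 431 * a)) * (6 - 5 * a)))) := by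
      linear_combination -e2
    linarith
  have hfin : (2 * (d : ℤ) * m) % ((1297 : ℕ) : ℤ) = 1 % ((1297 : ℕ) : ℤ) := by
    obtain ⟨g, hg⟩ := hG
    apply Int.modEq_iff_dvd.2
    refine ⟨864 * g - 864 * 2 * k * a - (8 * k + 4) -
      (8 * k + 5) * (216 * a ^ 2 + 24 * 1297 * a ^ 3 + 1297 ^ 2 * a ^ 4), ?_⟩
    have e4 : 2 * (d : ℤ) * m = d * (2 * m) := by ring
    rw [e4, hMA, hk, ← ha]
    push_cast
    linear_combination 864 * hg
  have hJ3 := jacobiSym.mod_left' hfin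
  rw [jacobiSym.mul_left, jacobiSym.mul_left, jacobiSym.one_left] at hJ3
  have j2 : jacobiSym 2 1297 = 1 := by norm_num
  rw [j2, one_mul] at hJ3
  rcases jacobiSym.trichotomy (d : ℤ) 1297 with h4 | h4 | h4
  · rw [h4] at hJ3; norm_num at hJ3
  · rw [h4] at hJ3; linarith
  · exact h4

end Pool.Agent.SIX
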