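import Pool.Agent.Lib_helper49.SIX.Eight

set_option autoImplicit false

namespace Pool.Agent.SIX

/-- Euler's criterion at 1297 -/
theorem euler {C : ℕ} (h : (C : ZMod 1297) ^ 648 = 1) : jacobiSym (C : ℤ) 1297 = 1 := by
  rw [← jacobiSym.legendreSym.to_jacobiSym]
  have h1 := legendreSym.eq_pow 1297 (C : ℤ)
  have h2 : (1297 : ℕ) / 2 = 648 := by norm_num
  rw [h2] at h1
  have h3 : (((C : ℤ) : ZMod 1297)) = (C : ZMod 1297) := by push_cast; rfl
  rw [h3, h] at h1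
  have ht := jacobiSym.trichotomy (C : ℤ) 1297
  rw [← jacobiSym.legendreSym.to_jacobiSym] at ht
  rcases ht with h4 | h4 | h4
  · rw [h4] at h1; exact absurd h1 (by decide)
  · exact h4
  · rw [h4] at h1; exact absurd h1 (by decide)

/-- the table: every `v` in the group of eighth powers is excluded by one of four classes -/
theorem table : ∀ n : Fin 1297, n.val ^ 162 % 1297 = 1 →
    (((n.val + 1291) ^ 973 % 1297 + 1291) ^ 648 % 1297 = 1 ∨
     ((n.val + 1291) ^ 533 % 1297 + 1291) ^ 648 % 1297 = 1 ∨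
     ((n.val + 1291) ^ 413 % 1297 + 1291) ^ 648 % 1297 = 1 ∨
     ((n.val + 1291) ^ 805 % 1297 + 1291) ^ 648 % 1297 = 1) := by
  decide +kernel

theorem table' (v : ZMod 1297) (hv : v ^ 162 = 1) :
    ((v - 6) ^ 973 - 6) ^ 648 = 1 ∨ ((v - 6) ^ 533 - 6) ^ 648 = 1 ∨
    ((v - 6) ^ 413 - 6) ^ 648 = 1 ∨ ((v - 6) ^ 805 - 6) ^ 648 = 1 := by
  have h6 : ((1291 : ℕ) : ZMod 1297) = -6 := by decide
  have key : ∀ e : ℕ, ((v.val + 1291) ^ e % 1297 + 1291) ^ 648 % 1297 = 1 →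
      ((v - 6) ^ e - 6) ^ 648 = 1 := by
    intro e he
    have h1 : (((((v.val + 1291) ^ e % 1297 + 1291) ^ 648 % 1297 : ℕ)) : ZMod 1297) = 1 := by
      rw [he]; norm_num
    rw [ZMod.natCast_mod, Nat.cast_pow, Nat.cast_add, ZMod.natCast_mod, Nat.cast_pow, Nat.cast_add,
      h6, ZMod.natCast_zmod_val] at h1
    rw [sub_eq_add_neg, sub_eq_add_neg]
    exact h1
  have hn : (⟨v.val, ZMod.val_lt v⟩ : Fin 1297).val ^ 162 % 1297 = 1 := by
    have h1 : ((v.val ^ 162 : ℕ) : ZMod 1297) = ((1 : ℕ) : ZMod 1297) := by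
      rw [Nat.cast_pow, ZMod.natCast_zmod_val, hv]; norm_num
    rw [ZMod.natCast_eq_natCast_iff'] at h1
    exact h1
  rcases table ⟨v.val, ZMod.val_lt v⟩ hn with h | h | h | h
  · exact Or.inl (key _ h)
  · exact Or.inr (Or.inl (key _ h))
  · exact Or.inr (Or.inr (Or.inl (key _ h)))
  · exact Or.inr (Or.inr (Or.inr (key _ h)))

/-- one class -/
theorem one_class {x y : ℤ} {p q d u' : ℕ} (hy : 0 < y) (hp2 : 2 ∣ p) (h : x ^ p - y ^ q = 6)
    (hd : d ∣ q) (hd8 : d % 8 = 5) (hdu : d * u' % 1296 = 1)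
    (hk : (((x : ZMod 1297) ^ p - 6) ^ u' - 6) ^ 648 = 1) : False := by
  have h1 := reduce hp2 hd h
  obtain ⟨C, hC, -, hJ⟩ := tn_a hd8 (pow_pos hy (q / d)) h1
  have h3 : (x : ZMod 1297) ^ p = ((y ^ (q / d) : ℤ) : ZMod 1297) ^ d + 6 := by
    have e0 : x ^ p = (y ^ (q / d)) ^ d + 6 := by
      rw [← h1, ← pow_mul, Nat.div_mul_cancel hp2]
    have := congrArg (fun t : ℤ => (t : ZMod 1297)) e0
    push_cast at this ⊢
    exact this
  set z : ℤ := y ^ (q / d) with hz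
  have h4 : (z : ZMod 1297) ^ d = (x : ZMod 1297) ^ p - 6 := by rw [h3]; ring
  have h5 := inv_pow hdu h4
  have h6 : (C : ZMod 1297) = (z : ZMod 1297) - 6 := by
    rw [hC]; push_cast; ring
  rw [← h5, ← h6] at hk
  have := euler hk
  omega

/-- `8 ∣ p` -/
theorem eight_dvd {x y : ℤ} {p q : ℕ} (hy : 0 < y) (hp : 8 ∣ p) (hp0 : 0 < p)
    (h : x ^ p - y ^ q = 6) {d₁ d₂ d₃ d₄ e : ℕ}
    (h1 : d₁ ∣ q) (h1' : d₁ % 1296 = 325) (h2 : d₂ ∣ q) (h2' : d₂ % 1296 = 941)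
    (h3 : d₃ ∣ q) (h3' : d₃ % 1296 = 1205) (h4 : d₄ ∣ q) (h4' : d₄ % 1296 = 1069)
    (he : e ∣ q) (he8 : e % 8 = 5) (he3 : e % 3 ≠ 0) (hej : jacobiSym (e : ℤ) 1297 ≠ -1) :
    False := by
  have hp2 : 2 ∣ p := dvd_trans (by norm_num) hp
  by_cases h7 : (1297 : ℤ) ∣ x ^ (p / 2)
  · exact hej (tn_b he8 he3 (pow_pos hy _) (reduce hp2 he h) h7)
  · have hx : (x : ZMod 1297) ≠ 0 := by
      intro h0
      have h01 : ((x : ℤ) : ZMod 1297) = 0 := h0
      rw [ZMod.intCast_zmod_eq_zero_iff_dvd] at h01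
      apply h7
      apply dvd_pow h01
      omega
    have hv : ((x : ZMod 1297) ^ p) ^ 162 = 1 := by
      obtain ⟨j, rfl⟩ := hp
      have h1 : (x : ZMod 1297) ^ 1296 = 1 := ZMod.pow_card_sub_one_eq_one hx
      rw [← pow_mul, show 8 * j * 162 = 1296 * j by ring, pow_mul, h1, one_pow]
    have hm : ∀ {d u u' : ℕ}, d % 1296 = u → u * u' % 1296 = 1 → d * u' % 1296 = 1 := by
      intro d u u' hd hu
      rw [Nat.mul_mod, hd]
      rw [Nat.mul_mod] at hu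
      rw [← hd] at hu ⊢
      simpa using hu
    rcases table' _ hv with k | k | k | k
    · exact one_class hy hp2 h h1 (by omega) (hm h1' (by norm_num)) k
    · exact one_class hy hp2 h h2 (by omega) (hm h2' (by norm_num)) k
    · exact one_class hy hp2 h h3 (by omega) (hm h3' (by norm_num)) k
    · exact one_class hy hp2 h h4 (by omega) (hm h4' (by norm_num)) k

end Pool.Agent.SIX
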