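import Pool.Agent.Lib_helper49.SIX.Tab

set_option autoImplicit false

namespace Pool.Agent.SIX

theorem tab1_0 : ∀ a : Fin 5, ∀ b : Fin 314, good (314 * (0 + a.val) + b.val) = true := by
  decide +kernel

theorem tab1_1 : ∀ a : Fin 5, ∀ b : Fin 314, good (314 * (5 + a.val) + b.val) = true := by
  decide +kernel

theorem tab1_2 : ∀ a : Fin 5, ∀ b : Fin 314, good (314 * (10 + a.val) + b.val) = true := by
  decide +kernel

theorem tab1_3 : ∀ a : Fin 5, ∀ b : Fin 314, good (314 * (15 + a.val) + b.val) = true := by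
  decide +kernel

theorem tab1_4 : ∀ a : Fin 5, ∀ b : Fin 314, good (314 * (20 + a.val) + b.val) = true := by
  decide +kernel

theorem tab1_5 : ∀ a : Fin 5, ∀ b : Fin 314, good (314 * (25 + a.val) + b.val) = true := by
  decide +kernel

theorem tab1_6 : ∀ a : Fin 5, ∀ b : Fin 314, good (314 * (30 + a.val) + b.val) = true := by
  decide +kernel

theorem tab1_7 : ∀ a : Fin 5, ∀ b : Fin 314, good (314 * (35 + a.val) + b.val) = true := by
  decide +kernel

theorem tab1_8 : ∀ a : Fin 5, ∀ b : Fin 314, good (314 * (40 + a.val) + b.val) = true := by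
  decide +kernel

theorem tab1 : ∀ a : Fin 45, ∀ b : Fin 314, good (314 * (0 + a.val) + b.val) = true := by
  rintro ⟨a, ha⟩ b
  obtain ⟨r, t, ht, hr, rfl⟩ : ∃ r t : ℕ, t < 5 ∧ r < 9 ∧ a = 5 * r + t :=
    ⟨a / 5, a % 5, Nat.mod_lt _ (by norm_num), by omega, (Nat.div_add_mod a 5).symm⟩
  interval_cases r
  · have h := tab1_0 ⟨t, ht⟩ b
    rwa [show 0 + t = 0 + (5 * 0 + t) by omega] at h
  · have h := tab1_1 ⟨t, ht⟩ b
    rwa [show 5 + t = 0 + (5 * 1 + t) by omega] at h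
  · have h := tab1_2 ⟨t, ht⟩ b
    rwa [show 10 + t = 0 + (5 * 2 + t) by omega] at h
  · have h := tab1_3 ⟨t, ht⟩ b
    rwa [show 15 + t = 0 + (5 * 3 + t) by omega] at h
  · have h := tab1_4 ⟨t, ht⟩ b
    rwa [show 20 + t = 0 + (5 * 4 + t) by omega] at h
  · have h := tab1_5 ⟨t, ht⟩ b
    rwa [show 25 + t = 0 + (5 * 5 + t) by omega] at h
  · have h := tab1_6 ⟨t, ht⟩ b
    rwa [show 30 + t = 0 + (5 * 6 + t) by omega] at h
  · have h := tab1_7 ⟨t, ht⟩ b
    rwa [show 35 + t = 0 + (5 * 7 + t) by omega] at h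
  · have h := tab1_8 ⟨t, ht⟩ b
    rwa [show 40 + t = 0 + (5 * 8 + t) by omega] at h

end Pool.Agent.SIX
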