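import Pool.Agent.Lib_helper49.SIX.Tab

set_option autoImplicit false

namespace Pool.Agent.SIX

theorem tab5_0 : ∀ a : Fin 5, ∀ b : Fin 314, good (314 * (180 + a.val) + b.val) = true := by
  decide +kernel

theorem tab5_1 : ∀ a : Fin 5, ∀ b : Fin 314, good (314 * (185 + a.val) + b.val) = true := by
  decide +kernel

theorem tab5_2 : ∀ a : Fin 5, ∀ b : Fin 314, good (314 * (190 + a.val) + b.val) = true := by
  decide +kernel

theorem tab5_3 : ∀ a : Fin 5, ∀ b : Fin 314, good (314 * (195 + a.val) + b.val) = true := by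
  decide +kernel

theorem tab5_4 : ∀ a : Fin 5, ∀ b : Fin 314, good (314 * (200 + a.val) + b.val) = true := by
  decide +kernel

theorem tab5_5 : ∀ a : Fin 5, ∀ b : Fin 314, good (314 * (205 + a.val) + b.val) = true := by
  decide +kernel

theorem tab5_6 : ∀ a : Fin 5, ∀ b : Fin 314, good (314 * (210 + a.val) + b.val) = true := by
  decide +kernel

theorem tab5_7 : ∀ a : Fin 5, ∀ b : Fin 314, good (314 * (215 + a.val) + b.val) = true := by
  decide +kernel

theorem tab5_8 : ∀ a : Fin 5, ∀ b : Fin 314, good (314 * (220 + a.val) + b.val) = true := by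
  decide +kernel

theorem tab5 : ∀ a : Fin 45, ∀ b : Fin 314, good (314 * (180 + a.val) + b.val) = true := by
  rintro ⟨a, ha⟩ b
  obtain ⟨r, t, ht, hr, rfl⟩ : ∃ r t : ℕ, t < 5 ∧ r < 9 ∧ a = 5 * r + t :=
    ⟨a / 5, a % 5, Nat.mod_lt _ (by norm_num), by omega, (Nat.div_add_mod a 5).symm⟩
  interval_cases r
  · have h := tab5_0 ⟨t, ht⟩ b
    rwa [show 180 + t = 180 + (5 * 0 + t) by omega] at h
  · have h := tab5_1 ⟨t, ht⟩ b
    rwa [show 185 + t = 180 + (5 * 1 + t) by omega] at h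
  · have h := tab5_2 ⟨t, ht⟩ b
    rwa [show 190 + t = 180 + (5 * 2 + t) by omega] at h
  · have h := tab5_3 ⟨t, ht⟩ b
    rwa [show 195 + t = 180 + (5 * 3 + t) by omega] at h
  · have h := tab5_4 ⟨t, ht⟩ b
    rwa [show 200 + t = 180 + (5 * 4 + t) by omega] at h
  · have h := tab5_5 ⟨t, ht⟩ b
    rwa [show 205 + t = 180 + (5 * 5 + t) by omega] at h
  · have h := tab5_6 ⟨t, ht⟩ b
    rwa [show 210 + t = 180 + (5 * 6 + t) by omega] at h
  · have h := tab5_7 ⟨t, ht⟩ b
    rwa [show 215 + t = 180 + (5 * 7 + t) by omega] at h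
  · have h := tab5_8 ⟨t, ht⟩ b
    rwa [show 220 + t = 180 + (5 * 8 + t) by omega] at h

end Pool.Agent.SIX
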