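import Pool.Agent.Lib_helper49.SIX.Tab

set_option autoImplicit false

namespace Pool.Agent.SIX

theorem tab6_0 : ∀ a : Fin 5, ∀ b : Fin 314, good (314 * (225 + a.val) + b.val) = true := by
  decide +kernel

theorem tab6_1 : ∀ a : Fin 5, ∀ b : Fin 314, good (314 * (230 + a.val) + b.val) = true := by
  decide +kernel

theorem tab6_2 : ∀ a : Fin 5, ∀ b : Fin 314, good (314 * (235 + a.val) + b.val) = true := by
  decide +kernel

theorem tab6_3 : ∀ a : Fin 5, ∀ b : Fin 314, good (314 * (240 + a.val) + b.val) = true := by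
  decide +kernel

theorem tab6_4 : ∀ a : Fin 5, ∀ b : Fin 314, good (314 * (245 + a.val) + b.val) = true := by
  decide +kernel

theorem tab6_5 : ∀ a : Fin 5, ∀ b : Fin 314, good (314 * (250 + a.val) + b.val) = true := by
  decide +kernel

theorem tab6_6 : ∀ a : Fin 5, ∀ b : Fin 314, good (314 * (255 + a.val) + b.val) = true := by
  decide +kernel

theorem tab6_7 : ∀ a : Fin 5, ∀ b : Fin 314, good (314 * (260 + a.val) + b.val) = true := by
  decide +kernel

theorem tab6_8 : ∀ a : Fin 5, ∀ b : Fin 314, good (314 * (265 + a.val) + b.val) = true := by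
  decide +kernel

theorem tab6 : ∀ a : Fin 45, ∀ b : Fin 314, good (314 * (225 + a.val) + b.val) = true := by
  rintro ⟨a, ha⟩ b
  obtain ⟨r, t, ht, hr, rfl⟩ : ∃ r t : ℕ, t < 5 ∧ r < 9 ∧ a = 5 * r + t :=
    ⟨a / 5, a % 5, Nat.mod_lt _ (by norm_num), by omega, (Nat.div_add_mod a 5).symm⟩
  interval_cases r
  · have h := tab6_0 ⟨t, ht⟩ b
    rwa [show 225 + t = 225 + (5 * 0 + t) by omega] at h
  · have h := tab6_1 ⟨t, ht⟩ b
    rwa [show 230 + t = 225 + (5 * 1 + t) by omega] at h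
  · have h := tab6_2 ⟨t, ht⟩ b
    rwa [show 235 + t = 225 + (5 * 2 + t) by omega] at h
  · have h := tab6_3 ⟨t, ht⟩ b
    rwa [show 240 + t = 225 + (5 * 3 + t) by omega] at h
  · have h := tab6_4 ⟨t, ht⟩ b
    rwa [show 245 + t = 225 + (5 * 4 + t) by omega] at h
  · have h := tab6_5 ⟨t, ht⟩ b
    rwa [show 250 + t = 225 + (5 * 5 + t) by omega] at h
  · have h := tab6_6 ⟨t, ht⟩ b
    rwa [show 255 + t = 225 + (5 * 6 + t) by omega] at h
  · have h := tab6_7 ⟨t, ht⟩ b
    rwa [show 260 + t = 225 + (5 * 7 + t) by omega] at h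
  · have h := tab6_8 ⟨t, ht⟩ b
    rwa [show 265 + t = 225 + (5 * 8 + t) by omega] at h

end Pool.Agent.SIX
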