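import Pool.Agent.Lib_helper49.SIX.Deg
import Pool.Agent.Lib_helper49.SIX.Tab1
import Pool.Agent.Lib_helper49.SIX.Tab2
import Pool.Agent.Lib_helper49.SIX.Tab3
import Pool.Agent.Lib_helper49.SIX.Tab4
import Pool.Agent.Lib_helper49.SIX.Tab5
import Pool.Agent.Lib_helper49.SIX.Tab6
import Pool.Agent.Lib_helper49.SIX.Tab7

set_option autoImplicit false

namespace Pool.Agent.SIX

instance fact98801 : Fact (Nat.Prime 98801) := ⟨by norm_num⟩
instance fact17 : Fact (Nat.Prime 17) := ⟨by norm_num⟩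
instance fact2a : Fact (2 < 98801) := ⟨by norm_num⟩
instance fact2b : Fact (2 < 17) := ⟨by norm_num⟩

theorem euler_one {l : ℕ} [Fact l.Prime] [Fact (2 < l)] {c : ℤ} (h : (c : ZMod l) ^ (l / 2) = 1) :
    jacobiSym c l = 1 := by
  rw [← jacobiSym.legendreSym.to_jacobiSym]
  have h1 := legendreSym.eq_pow l c
  rw [h] at h1
  have ht := jacobiSym.trichotomy c l
  rw [← jacobiSym.legendreSym.to_jacobiSym] at ht
  rcases ht with h4 | h4 | h4
  · rw [h4] at h1; exact absurd h1 (by simp)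
  · exact h4
  · rw [h4] at h1
    exfalso
    push_cast at h1
    exact ZMod.neg_one_ne_one h1

theorem euler_neg {l : ℕ} [Fact l.Prime] [Fact (2 < l)] {c : ℤ} (h : (c : ZMod l) ^ (l / 2) = -1) :
    jacobiSym c l = -1 := by
  rw [← jacobiSym.legendreSym.to_jacobiSym]
  have h1 := legendreSym.eq_pow l c
  rw [h] at h1
  have ht := jacobiSym.trichotomy c l
  rw [← jacobiSym.legendreSym.to_jacobiSym] at ht
  rcases ht with h4 | h4 | h4
  · rw [h4] at h1; exact absurd h1 (by simp)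
  · rw [h4] at h1
    exfalso
    push_cast at h1
    exact ZMod.neg_one_ne_one h1.symm
  · exact h4

theorem s2 {c : ℤ} {m : ℕ} (hm : (m : ZMod 98801) = (c : ZMod 98801)) :
    (t2 m = 1 → jacobiSym c 98801 = 1) ∧ (t2 m = 98800 → jacobiSym c 98801 = -1) := by
  have key : ((t2 m : ℕ) : ZMod 98801) = (c : ZMod 98801) ^ (98801 / 2) := by
    unfold t2
    rw [ZMod.natCast_mod, Nat.cast_pow, ZMod.natCast_mod, Nat.cast_pow, hm, ← pow_mul]
  constructor
  · intro h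
    apply euler_one
    rw [← key, h]; norm_num
  · intro h
    apply euler_neg
    rw [← key, h, eq_neg_iff_add_eq_zero]
    have := ZMod.natCast_self 98801
    push_cast at this ⊢
    rw [← this]; ring

theorem s1 {c : ℤ} {m : ℕ} (hm : (m : ZMod 17) = (c : ZMod 17)) :
    (t1 m = 1 → jacobiSym c 17 = 1) ∧ (t1 m = 16 → jacobiSym c 17 = -1) := by
  have key : ((t1 m : ℕ) : ZMod 17) = (c : ZMod 17) ^ (17 / 2) := by
    unfold t1
    rw [ZMod.natCast_mod, Nat.cast_pow, hm]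
  constructor
  · intro h
    apply euler_one
    rw [← key, h]; norm_num
  · intro h
    apply euler_neg
    rw [← key, h]; decide

theorem jac_N (c : ℤ) : jacobiSym c 1679617 = jacobiSym c 17 * jacobiSym c 98801 := by
  rw [← jacobiSym.mul_right]

theorem same_pos {c : ℤ} {m2 m1 : ℕ} (h2 : (m2 : ZMod 98801) = (c : ZMod 98801))
    (h1 : (m1 : ZMod 17) = (c : ZMod 17)) (hs : same m2 m1 = true) :
    jacobiSym c 1679617 = 1 := by
  unfold same at hs
  rw [Bool.or_eq_true, Bool.and_eq_true, Bool.and_eq_true, beq_iff_eq, beq_iff_eq, beq_iff_eq,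
    beq_iff_eq] at hs
  rw [jac_N]
  rcases hs with ⟨ha, hb⟩ | ⟨ha, hb⟩
  · rw [(s2 h2).1 ha, (s1 h1).1 hb]; norm_num
  · rw [(s2 h2).2 ha, (s1 h1).2 hb]; norm_num

theorem diff_neg {c : ℤ} {m2 m1 : ℕ} (h2 : (m2 : ZMod 98801) = (c : ZMod 98801))
    (h1 : (m1 : ZMod 17) = (c : ZMod 17)) (hs : diff m2 m1 = true) :
    jacobiSym c 1679617 = -1 := by
  unfold diff at hs
  rw [Bool.or_eq_true, Bool.and_eq_true, Bool.and_eq_true, beq_iff_eq, beq_iff_eq, beq_iff_eq,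
    beq_iff_eq] at hs
  rw [jac_N]
  rcases hs with ⟨ha, hb⟩ | ⟨ha, hb⟩
  · rw [(s2 h2).1 ha, (s1 h1).2 hb]; norm_num
  · rw [(s2 h2).2 ha, (s1 h1).1 hb]; norm_num

/-- a power with exponent prime to `l - 1` is invertible mod `l` -/
theorem inv_pow_gen {l : ℕ} [Fact l.Prime] {z v : ZMod l} {d u' : ℕ}
    (hd : d * u' % (l - 1) = 1) (h : z ^ d = v) : z = v ^ u' := by
  have hd0 : d ≠ 0 := by rintro rfl; simp at hd
  have hu0 : u' ≠ 0 := by rintro rfl; simp at hd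
  rcases eq_or_ne z 0 with h0 | h0
  · subst h0
    rw [zero_pow hd0] at h
    rw [← h, zero_pow hu0]
  · have h1 : z ^ (l - 1) = 1 := ZMod.pow_card_sub_one_eq_one h0
    rw [← h, ← pow_mul]
    conv_rhs => rw [← Nat.div_add_mod (d * u') (l - 1), pow_add, pow_mul, h1, one_pow, one_mul, hd,
      pow_one]

/-- the data of one class -/
theorem class_data {x y : ℤ} {p q d u' n n1 : ℕ} (hp2 : 2 ∣ p)
    (h : x ^ p - y ^ q = 6) (hd : d ∣ q) (hu : d * u' % 98800 = 1)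
    (hn : (n : ZMod 98801) = (x : ZMod 98801) ^ p) (hn1 : (n1 : ZMod 17) = (x : ZMod 17) ^ p) :
    (((n + 98795) ^ u' % 98801 : ℕ) : ZMod 98801) = ((y ^ (q / d) : ℤ) : ZMod 98801) ∧
    (((n1 + 11) ^ u' % 17 : ℕ) : ZMod 17) = ((y ^ (q / d) : ℤ) : ZMod 17) := by
  have h1 := reduce hp2 hd h
  have e0 : x ^ p = (y ^ (q / d)) ^ d + 6 := by
    rw [← h1, ← pow_mul, Nat.div_mul_cancel hp2]
  set z : ℤ := y ^ (q / d) with hz
  constructor
  · have h3 : (x : ZMod 98801) ^ p = (z : ZMod 98801) ^ d + 6 := by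
      have := congrArg (fun t : ℤ => (t : ZMod 98801)) e0
      push_cast at this
      exact this
    have h4 : (z : ZMod 98801) ^ d = (x : ZMod 98801) ^ p - 6 := by rw [h3]; ring
    have h5 := inv_pow_gen (l := 98801) hu h4
    rw [ZMod.natCast_mod, Nat.cast_pow, Nat.cast_add, hn, h5]
    have : ((98795 : ℕ) : ZMod 98801) = -6 := by
      rw [eq_neg_iff_add_eq_zero]
      have := ZMod.natCast_self 98801
      push_cast at this ⊢
      rw [← this]; ring
    rw [this, sub_eq_add_neg]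
  · have h3 : (x : ZMod 17) ^ p = (z : ZMod 17) ^ d + 6 := by
      have := congrArg (fun t : ℤ => (t : ZMod 17)) e0
      push_cast at this
      exact this
    have h4 : (z : ZMod 17) ^ d = (x : ZMod 17) ^ p - 6 := by rw [h3]; ring
    have hu16 : d * u' % (17 - 1) = 1 := by
      have : d * u' % 16 = d * u' % 98800 % 16 := (Nat.mod_mod_of_dvd _ (by norm_num)).symm
      rw [show 17 - 1 = 16 by norm_num, this, hu]
    have h5 := inv_pow_gen (l := 17) hu16 h4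
    rw [ZMod.natCast_mod, Nat.cast_pow, Nat.cast_add, hn1, h5]
    have : ((11 : ℕ) : ZMod 17) = -6 := by decide
    rw [this, sub_eq_add_neg]

theorem mod16 {d u' r s : ℕ} (hu : d * u' % 98800 = 1) (hr : u' % 16 = r) (hs : r * s % 16 = 1)
    (hs' : s < 16) : d % 16 = s := by
  have h1 : d * u' % 16 = 1 := by
    have : d * u' % 16 = d * u' % 98800 % 16 := (Nat.mod_mod_of_dvd _ (by norm_num)).symm
    rw [this, hu]
  rw [Nat.mul_mod, hr] at h1
  have h2 : d % 16 < 16 := Nat.mod_lt _ (by norm_num)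
  have h3 : r < 16 := by rw [← hr]; exact Nat.mod_lt _ (by norm_num)
  generalize d % 16 = w at h1 h2 ⊢
  have key : ∀ w s r : Fin 16, w.val * r.val % 16 = 1 → r.val * s.val % 16 = 1 → w = s := by decide
  have := key ⟨w, h2⟩ ⟨s, hs'⟩ ⟨r, h3⟩ h1 hs
  simpa using this

theorem use9 {x y : ℤ} {p q d u' n n1 : ℕ} (hy : 0 < y) (hp2 : 2 ∣ p)
    (h : x ^ p - y ^ q = 6) (hd : d ∣ q) (hu : d * u' % 98800 = 1) (h16 : u' % 16 = 9)
    (hn : (n : ZMod 98801) = (x : ZMod 98801) ^ p) (hn1 : (n1 : ZMod 17) = (x : ZMod 17) ^ p)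
    (hk : k9 n n1 u' = true) : False := by
  obtain ⟨e2, e1⟩ := class_data hp2 h hd hu hn hn1
  have hd16 : d % 16 = 9 := mod16 hu h16 (by norm_num) (by norm_num)
  have hc := c9 hd16 (pow_pos hy (q / d)) (reduce hp2 hd h)
  unfold k9 at hk
  have := same_pos (c := y ^ (q / d) - 6) ?_ ?_ hk
  · rw [this] at hc; norm_num at hc
  · rw [Nat.cast_add, e2]
    have h0 : ((98795 : ℕ) : ZMod 98801) = -6 := by
      rw [eq_neg_iff_add_eq_zero]
      have := ZMod.natCast_self 98801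
      push_cast at this ⊢
      rw [← this]; ring
    rw [h0]; push_cast; ring
  · rw [Nat.cast_add, e1]
    have h0 : ((11 : ℕ) : ZMod 17) = -6 := by decide
    rw [h0]; push_cast; ring

theorem use3 {x y : ℤ} {p q d u' n n1 : ℕ} (hy : 0 < y) (hp2 : 2 ∣ p)
    (h : x ^ p - y ^ q = 6) (hd : d ∣ q) (hd3 : 3 ≤ d) (hu : d * u' % 98800 = 1)
    (h16 : u' % 16 = 11)
    (hn : (n : ZMod 98801) = (x : ZMod 98801) ^ p) (hn1 : (n1 : ZMod 17) = (x : ZMod 17) ^ p)
    (hk : k3 n n1 u' = true) : False := by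
  obtain ⟨e2, e1⟩ := class_data hp2 h hd hu hn hn1
  have hd16 : d % 16 = 3 := mod16 hu h16 (by norm_num) (by norm_num)
  have hc := c3 hd16 hd3 (pow_pos hy (q / d)) (reduce hp2 hd h)
  unfold k3 at hk
  have := diff_neg (c := y ^ (q / d) - 216) ?_ ?_ hk
  · rw [this] at hc; norm_num at hc
  · rw [Nat.cast_add, e2]
    have h0 : ((98585 : ℕ) : ZMod 98801) = -216 := by
      rw [eq_neg_iff_add_eq_zero]
      have := ZMod.natCast_self 98801
      push_cast at this ⊢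
      rw [← this]; ring
    rw [h0]; push_cast; ring
  · rw [Nat.cast_add, e1]
    have h0 : ((5 : ℕ) : ZMod 17) = -216 := by decide
    rw [h0]; push_cast; ring

theorem use11 {x y : ℤ} {p q d u' n n1 : ℕ} (hy : 0 < y) (hp2 : 2 ∣ p)
    (h : x ^ p - y ^ q = 6) (hd : d ∣ q) (hu : d * u' % 98800 = 1) (h16 : u' % 16 = 3)
    (hn : (n : ZMod 98801) = (x : ZMod 98801) ^ p) (hn1 : (n1 : ZMod 17) = (x : ZMod 17) ^ p)
    (hk : k11 n n1 u' = true) : False := by
  obtain ⟨e2, e1⟩ := class_data hp2 h hd hu hn hn1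
  have hd16 : d % 16 = 11 := mod16 hu h16 (by norm_num) (by norm_num)
  have hc := c11 hd16 (pow_pos hy (q / d)) (reduce hp2 hd h)
  unfold k11 at hk
  have := same_pos (c := y ^ (q / d) + 216) ?_ ?_ hk
  · rw [this] at hc; norm_num at hc
  · rw [Nat.cast_add, e2]
    push_cast; ring
  · rw [Nat.cast_add, e1]
    have h0 : ((12 : ℕ) : ZMod 17) = 216 := by decide
    rw [h0]; push_cast; ring

/-- the table, all rows -/
theorem tab {n : ℕ} (hn : n < 98801) : good n = true := by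
  obtain ⟨a, b, hb, hab⟩ : ∃ a b : ℕ, b < 314 ∧ n = 314 * a + b :=
    ⟨n / 314, n % 314, Nat.mod_lt _ (by norm_num), (Nat.div_add_mod n 314).symm⟩
  have ha : a < 315 := by omega
  obtain ⟨r, s, hs, hr, hrs⟩ : ∃ r s : ℕ, s < 45 ∧ r < 7 ∧ a = 45 * r + s :=
    ⟨a / 45, a % 45, Nat.mod_lt _ (by norm_num), by omega, (Nat.div_add_mod a 45).symm⟩
  rw [hab, hrs]
  interval_cases r
  · exact tab1 ⟨s, hs⟩ ⟨b, hb⟩
  · exact tab2 ⟨s, hs⟩ ⟨b, hb⟩
  · exact tab3 ⟨s, hs⟩ ⟨b, hb⟩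
  · exact tab4 ⟨s, hs⟩ ⟨b, hb⟩
  · exact tab5 ⟨s, hs⟩ ⟨b, hb⟩
  · exact tab6 ⟨s, hs⟩ ⟨b, hb⟩
  · exact tab7 ⟨s, hs⟩ ⟨b, hb⟩

end Pool.Agent.SIX
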