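import Pool.Agent.Lib_helper49.SIX.Four

set_option autoImplicit false

namespace Pool.Agent.SIX

theorem jac_N' (c : ℤ) : jacobiSym c 1679617 = jacobiSym c 17 * jacobiSym c 98801 := jac_N c

/-- `z = y ^ (q / e)` in terms of `x ^ p` -/
theorem z_eq {x y : ℤ} {p q e : ℕ} (hp2 : 2 ∣ p) (h : x ^ p - y ^ q = 6) (he : e ∣ q)
    (h9 : e % 98800 = 9) :
    ((y ^ (q / e) : ℤ) : ZMod 98801) = ((x : ZMod 98801) ^ p - 6) ^ 54889 ∧
    ((y ^ (q / e) : ℤ) : ZMod 17) = ((x : ZMod 17) ^ p - 6) ^ 9 := by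
  have h1 := reduce hp2 he h
  have e0 : x ^ p = (y ^ (q / e)) ^ e + 6 := by
    rw [← h1, ← pow_mul, Nat.div_mul_cancel hp2]
  set z : ℤ := y ^ (q / e) with hz
  constructor
  · have h3 : (x : ZMod 98801) ^ p = (z : ZMod 98801) ^ e + 6 := by
      have := congrArg (fun t : ℤ => (t : ZMod 98801)) e0
      push_cast at this
      exact this
    have h4 : (z : ZMod 98801) ^ e = (x : ZMod 98801) ^ p - 6 := by rw [h3]; ring
    exact inv_pow_gen (l := 98801) (by norm_num; omega) h4
  · have h3 : (x : ZMod 17) ^ p = (z : ZMod 17) ^ e + 6 := by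
      have := congrArg (fun t : ℤ => (t : ZMod 17)) e0
      push_cast at this
      exact this
    have h4 : (z : ZMod 17) ^ e = (x : ZMod 17) ^ p - 6 := by rw [h3]; ring
    exact inv_pow_gen (l := 17) (by norm_num; omega) h4

theorem six17 {x y : ℤ} {p q e : ℕ} (hp2 : 2 ∣ p) (h : x ^ p - y ^ q = 6) (he : e ∣ q)
    (h9 : e % 98800 = 9) (hx : (x : ZMod 17) ^ p = 0) : (17 : ℤ) ∣ y ^ (q / e) - 6 := by
  have h1 := (z_eq hp2 h he h9).2
  rw [hx] at h1
  have h2 : ((y ^ (q / e) - 6 : ℤ) : ZMod 17) = 0 := by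
    rw [Int.cast_sub, h1]; decide
  exact_mod_cast (ZMod.intCast_zmod_eq_zero_iff_dvd _ 17).1 h2

theorem six98801 {x y : ℤ} {p q e : ℕ} (hp2 : 2 ∣ p) (h : x ^ p - y ^ q = 6) (he : e ∣ q)
    (h9 : e % 98800 = 9) (hx : (x : ZMod 98801) ^ p = 0) : (98801 : ℤ) ∣ y ^ (q / e) - 6 := by
  have h1 := (z_eq hp2 h he h9).1
  rw [hx] at h1
  have k1 : (((-6 : ℤ) ^ 16 : ℤ) : ZMod 98801) = ((1 : ℤ) : ZMod 98801) := by
    rw [ZMod.intCast_eq_intCast_iff_dvd_sub]; norm_num
  have k2 : (((-6 : ℤ) ^ 9 : ℤ) : ZMod 98801) = ((6 : ℤ) : ZMod 98801) := by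
    rw [ZMod.intCast_eq_intCast_iff_dvd_sub]; norm_num
  have h2 : ((y ^ (q / e) - 6 : ℤ) : ZMod 98801) = 0 := by
    rw [Int.cast_sub, h1, show (54889 : ℕ) = 16 * 3430 + 9 by norm_num, pow_add, pow_mul]
    have e1 : ((0 : ZMod 98801) - 6) = ((-6 : ℤ) : ZMod 98801) := by push_cast; ring
    rw [Int.cast_pow] at k1 k2
    rw [e1, k1, Int.cast_one, one_pow, one_mul, k2, sub_self]
  exact_mod_cast (ZMod.intCast_zmod_eq_zero_iff_dvd _ 98801).1 h2

/-- if `l ∣ z - 6` then `l ∣ z ^ e + 6` for `e ≡ 9 mod 16`, `l ∣ 1679617` -/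
theorem back {l z : ℤ} {e : ℕ} (hl : l ∣ 1679617) (he : e % 16 = 9) (hz : l ∣ z - 6) :
    l ∣ z ^ e + 6 := by
  obtain ⟨k, hk⟩ : ∃ k, e = 8 * (2 * k + 1) + 1 := ⟨e / 16, by omega⟩
  have h1 := phi9 z he
  have h2 : l ∣ z ^ 8 + 1 := by
    have : z ^ 8 + 1 = 1679617 + (z - 6) * (z ^ 7 + 6 * z ^ 6 + 36 * z ^ 5 + 216 * z ^ 4
      + 1296 * z ^ 3 + 7776 * z ^ 2 + 46656 * z + 279936) := by ring
    rw [this]
    exact dvd_add hl (dvd_mul_of_dvd_left hz _)
  have h3 : z ^ e + 6 = (z ^ e + z) - (z - 6) := by ring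
  rw [h3]
  exact dvd_sub (dvd_trans h2 h1) hz

theorem modeq {d c u' : ℕ} (hdc : d % 98800 = c) (hcu : c * u' % 98800 = 1) :
    d * u' % 98800 = 1 := by
  have h1 : d ≡ c [MOD 98800] := by
    unfold Nat.ModEq
    rw [← hdc, Nat.mod_mod]
  have h2 := Nat.ModEq.mul_right u' h1
  unfold Nat.ModEq at h2
  rw [h2]
  exact hcu

/-- the thirteen classes -/
def cls : List ℕ := [1257, 96217, 88809, 89161, 94473, 86473, 40409, 54137, 26089, 62811, 58603,
  54889, 53891]

theorem four_dvd {x y : ℤ} {p q : ℕ} (hy : 0 < y) (hp : 4 ∣ p) (hp0 : 0 < p)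
    (h : x ^ p - y ^ q = 6) (hU : ∀ c ∈ cls, ∃ d, d ∣ q ∧ d % 98800 = c)
    {e1 e2 : ℕ} (he1 : e1 ∣ q) (he2 : e2 ∣ q) (h19 : e1 % 98800 = 9) (h29 : e2 % 98800 = 9)
    (ha1 : jacobiSym (e1 : ℤ) 17 = 1) (hb1 : jacobiSym (e1 : ℤ) 98801 = 1)
    (ha2 : jacobiSym (e2 : ℤ) 17 = -1) (hb2 : jacobiSym (e2 : ℤ) 98801 = -1) : False := by
  have hp2 : 2 ∣ p := dvd_trans (by norm_num) hp
  have r1 := reduce hp2 he1 h
  have r2 := reduce hp2 he2 h
  have hz1 := z_eq hp2 h he1 h19
  have hz2 := z_eq hp2 h he2 h29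
  have hX17 : (x : ZMod 17) ^ p = 0 ↔ (17 : ℤ) ∣ x ^ (p / 2) := by
    rw [← Nat.div_mul_cancel hp2, Nat.mul_div_cancel _ (by norm_num), pow_mul,
      pow_eq_zero_iff (by norm_num)]
    have := ZMod.intCast_zmod_eq_zero_iff_dvd (x ^ (p / 2)) 17
    push_cast at this
    exact this
  have hX98801 : (x : ZMod 98801) ^ p = 0 ↔ (98801 : ℤ) ∣ x ^ (p / 2) := by
    rw [← Nat.div_mul_cancel hp2, Nat.mul_div_cancel _ (by norm_num), pow_mul,
      pow_eq_zero_iff (by norm_num)]
    have := ZMod.intCast_zmod_eq_zero_iff_dvd (x ^ (p / 2)) 98801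
    push_cast at this
    exact this
  have hy1 := pow_pos hy (q / e1)
  have hy2 := pow_pos hy (q / e2)
  by_cases h17 : (x : ZMod 17) ^ p = 0
  · have c1 := six17 hp2 h he1 h19 h17
    have c2 := six17 hp2 h he2 h29 h17
    by_cases h98 : (x : ZMod 98801) ^ p = 0
    · have d1 := six98801 hp2 h he1 h19 h98
      have hco : IsCoprime (17 : ℤ) 98801 := by norm_num
      have f1 : ((1679617 : ℕ) : ℤ) ∣ y ^ (q / e1) - 6 := by
        have := hco.mul_dvd c1 d1
        norm_num at this ⊢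
        exact this
      have f2 : ((1679617 : ℕ) : ℤ) ∣ x ^ (p / 2) := by
        have := hco.mul_dvd (hX17.1 h17) (hX98801.1 h98)
        norm_num at this ⊢
        exact this
      have := deg (N1 := 1679617) (N2 := 1) (by norm_num) (by norm_num) (by norm_num)
        (by omega) hy1 r1 f1 f2
      rw [jac_N, ha1, hb1, jacobiSym.one_right] at this
      norm_num at this
    · have g1 := deg (N1 := 17) (N2 := 98801) (by norm_num) (by norm_num) (by norm_num)
        (by omega) hy1 r1 (by exact_mod_cast c1) (by exact_mod_cast hX17.1 h17)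
      have g2 := deg (N1 := 17) (N2 := 98801) (by norm_num) (by norm_num) (by norm_num)
        (by omega) hy2 r2 (by exact_mod_cast c2) (by exact_mod_cast hX17.1 h17)
      have hzz : jacobiSym (y ^ (q / e1) - 6) 98801 = jacobiSym (y ^ (q / e2) - 6) 98801 := by
        apply jacobiSym.mod_left'
        have : ((y ^ (q / e1) : ℤ) : ZMod 98801) = ((y ^ (q / e2) : ℤ) : ZMod 98801) := by
          rw [hz1.1, hz2.1]
        rw [ZMod.intCast_eq_intCast_iff'] at this
        exact Int.ModEq.sub_right 6 this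
      rw [ha1, one_mul] at g1
      rw [ha2, ← hzz] at g2
      have g0 : jacobiSym (y ^ (q / e1) - 6) 98801 = 0 := by linarith
      have g3 : (98801 : ℤ) ∣ y ^ (q / e1) - 6 := by
        rw [← jacobiSym.legendreSym.to_jacobiSym, legendreSym.eq_zero_iff] at g0
        exact_mod_cast (ZMod.intCast_zmod_eq_zero_iff_dvd _ 98801).1 g0
      have g4 := back (l := 98801) (by norm_num) (show e1 % 16 = 9 by omega) g3
      rw [← r1] at g4
      exact h98 (hX98801.2 ((Int.prime_iff_natAbs_prime.2 (by norm_num)).dvd_of_dvd_pow g4))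
  · by_cases h98 : (x : ZMod 98801) ^ p = 0
    · have c1 := six98801 hp2 h he1 h19 h98
      have c2 := six98801 hp2 h he2 h29 h98
      have g1 := deg (N1 := 98801) (N2 := 17) (by norm_num) (by norm_num) (by norm_num)
        (by omega) hy1 r1 (by exact_mod_cast c1) (by exact_mod_cast hX98801.1 h98)
      have g2 := deg (N1 := 98801) (N2 := 17) (by norm_num) (by norm_num) (by norm_num)
        (by omega) hy2 r2 (by exact_mod_cast c2) (by exact_mod_cast hX98801.1 h98)
      have hzz : jacobiSym (y ^ (q / e1) - 6) 17 = jacobiSym (y ^ (q / e2) - 6) 17 := by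
        apply jacobiSym.mod_left'
        have : ((y ^ (q / e1) : ℤ) : ZMod 17) = ((y ^ (q / e2) : ℤ) : ZMod 17) := by
          rw [hz1.2, hz2.2]
        rw [ZMod.intCast_eq_intCast_iff'] at this
        exact Int.ModEq.sub_right 6 this
      rw [hb1, one_mul] at g1
      rw [hb2, ← hzz] at g2
      have g0 : jacobiSym (y ^ (q / e1) - 6) 17 = 0 := by linarith
      have g3 : (17 : ℤ) ∣ y ^ (q / e1) - 6 := by
        rw [← jacobiSym.legendreSym.to_jacobiSym, legendreSym.eq_zero_iff] at g0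
        exact_mod_cast (ZMod.intCast_zmod_eq_zero_iff_dvd _ 17).1 g0
      have g4 := back (l := 17) (by norm_num) (show e1 % 16 = 9 by omega) g3
      rw [← r1] at g4
      exact h17 (hX17.2 ((Int.prime_iff_natAbs_prime.2 (by norm_num)).dvd_of_dvd_pow g4))
    · -- the table
      obtain ⟨j, hj⟩ := hp
      have hx98 : (x : ZMod 98801) ≠ 0 := by
        intro h0; rw [h0, zero_pow (by omega)] at h98; exact h98 rfl
      have hx17 : (x : ZMod 17) ≠ 0 := by
        intro h0; rw [h0, zero_pow (by omega)] at h17; exact h17 rfl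
      have hv : ((x : ZMod 98801) ^ p) ^ 24700 = 1 := by
        have h1 : (x : ZMod 98801) ^ (98801 - 1) = 1 := ZMod.pow_card_sub_one_eq_one hx98
        rw [← pow_mul, hj, show 4 * j * 24700 = (98801 - 1) * j by omega, pow_mul, h1, one_pow]
      have hv1 : ((x : ZMod 17) ^ p) ^ 4 = 1 := by
        have h1 : (x : ZMod 17) ^ (17 - 1) = 1 := ZMod.pow_card_sub_one_eq_one hx17
        rw [← pow_mul, hj, show 4 * j * 4 = (17 - 1) * j by omega, pow_mul, h1, one_pow]
      set v : ZMod 98801 := (x : ZMod 98801) ^ p with hvd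
      set v1 : ZMod 17 := (x : ZMod 17) ^ p with hv1d
      have hn : ((v.val : ℕ) : ZMod 98801) = (x : ZMod 98801) ^ p := by
        rw [ZMod.natCast_zmod_val]
      have hn1 : ((v1.val : ℕ) : ZMod 17) = (x : ZMod 17) ^ p := by
        rw [ZMod.natCast_zmod_val]
      have hg := tab (ZMod.val_lt v)
      have hf : (v.val ^ 100 % 98801) ^ 247 % 98801 = 1 := by
        have h1 : (((v.val ^ 100 % 98801) ^ 247 : ℕ) : ZMod 98801) = ((1 : ℕ) : ZMod 98801) := by
          rw [Nat.cast_pow, ZMod.natCast_mod, Nat.cast_pow, ZMod.natCast_zmod_val, ← pow_mul, hv]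
          norm_num
        rw [ZMod.natCast_eq_natCast_iff'] at h1
        exact h1
      have h4 : v1.val = 1 ∨ v1.val = 4 ∨ v1.val = 13 ∨ v1.val = 16 := by
        have key : ∀ w : ZMod 17, w ^ 4 = 1 → w.val = 1 ∨ w.val = 4 ∨ w.val = 13 ∨ w.val = 16 := by
          decide
        exact key _ hv1
      have hk : kl v.val v1.val = true := by
        unfold good at hg
        rw [if_pos (by rw [beq_iff_eq]; exact hf)] at hg
        rw [Bool.and_eq_true, Bool.and_eq_true, Bool.and_eq_true] at hg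
        rcases h4 with h4 | h4 | h4 | h4 <;> rw [h4]
        · exact hg.1.1.1
        · exact hg.1.1.2
        · exact hg.1.2
        · exact hg.2
      unfold kl at hk
      simp only [Bool.or_eq_true] at hk
      have u9 : ∀ (c u' : ℕ), c ∈ cls → c * u' % 98800 = 1 → u' % 16 = 9 →
          k9 v.val v1.val u' = true → False := by
        intro c u' hc hcu h16 hk'
        obtain ⟨d, hd, hdc⟩ := hU c hc
        refine use9 hy hp2 h hd ?_ h16 hn hn1 hk'
        exact modeq hdc hcu
      have u11 : ∀ (c u' : ℕ), c ∈ cls → c * u' % 98800 = 1 → u' % 16 = 3 →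
          k11 v.val v1.val u' = true → False := by
        intro c u' hc hcu h16 hk'
        obtain ⟨d, hd, hdc⟩ := hU c hc
        refine use11 hy hp2 h hd ?_ h16 hn hn1 hk'
        exact modeq hdc hcu
      have u3 : ∀ (c u' : ℕ), c ∈ cls → c * u' % 98800 = 1 → u' % 16 = 11 → 3 ≤ c →
          k3 v.val v1.val u' = true → False := by
        intro c u' hc hcu h16 hc3 hk'
        obtain ⟨d, hd, hdc⟩ := hU c hc
        have hd3 : 3 ≤ d := le_trans hc3 (by rw [← hdc]; exact Nat.mod_le _ _)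
        refine use3 hy hp2 h hd hd3 ?_ h16 hn hn1 hk'
        exact modeq hdc hcu
      rcases hk with (((((((((((hk | hk) | hk) | hk) | hk) | hk) | hk) | hk) | hk) | hk) | hk) | hk) | hk
      · exact u9 1257 _ (by decide) (by norm_num) (by norm_num) hk
      · exact u9 96217 _ (by decide) (by norm_num) (by norm_num) hk
      · exact u9 88809 _ (by decide) (by norm_num) (by norm_num) hk
      · exact u9 89161 _ (by decide) (by norm_num) (by norm_num) hk
      · exact u9 94473 _ (by decide) (by norm_num) (by norm_num) hk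
      · exact u9 86473 _ (by decide) (by norm_num) (by norm_num) hk
      · exact u9 40409 _ (by decide) (by norm_num) (by norm_num) hk
      · exact u9 54137 _ (by decide) (by norm_num) (by norm_num) hk
      · exact u9 26089 _ (by decide) (by norm_num) (by norm_num) hk
      · exact u11 62811 _ (by decide) (by norm_num) (by norm_num) hk
      · exact u11 58603 _ (by decide) (by norm_num) (by norm_num) hk
      · exact u9 54889 _ (by decide) (by norm_num) (by norm_num) hk
      · exact u3 53891 _ (by decide) (by norm_num) (by norm_num) (by norm_num) hk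

end Pool.Agent.SIX
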