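import Pool.Agent.Lib_helper49.SIX.Core43b

set_option autoImplicit false

namespace Pool.Agent.SIX

theorem jac43 {E r : ℕ} (h : E % 43 = r) : jacobiSym (E : ℤ) 43 = jacobiSym (r : ℤ) 43 := by
  have h1 := jacobiSym.mod_left (E : ℤ) 43
  have h3 : ((E : ℤ) % ((43 : ℕ) : ℤ)) = ((E % 43 : ℕ) : ℤ) := by push_cast; rfl
  rw [h3, h] at h1
  exact h1

/-- `14 ∣ p` -/
theorem fourteen_dvd {x y : ℤ} {p q : ℕ} (hy : 0 < y) (hp : 14 ∣ p) (hp0 : 0 < p)
    (h : x ^ p - y ^ q = 6) {d e : ℕ} (hd : d ∣ q) (hd42 : d % 42 = 29) (he : e ∣ q)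
    (he6 : e % 6 = 5) (he7 : e % 7 ≠ 0) (he43 : jacobiSym (e : ℤ) 43 ≠ -1) : False := by
  have hp2 : 2 ∣ p := dvd_trans (by norm_num) hp
  have h1 := reduce hp2 hd h
  have h2 := reduce hp2 he h
  by_cases h7 : (43 : ℤ) ∣ x ^ (p / 2)
  · exact he43 (ft_b he6 he7 (pow_pos hy _) h2 h7)
  · have hx : (x : ZMod 43) ≠ 0 := by
      intro h0
      rw [ZMod.intCast_zmod_eq_zero_iff_dvd] at h0
      apply h7
      apply dvd_pow h0
      omega
    have k : ∀ w : ZMod 43, w = 0 ∨ w ^ 14 = 1 ∨ w ^ 14 = 6 ∨ w ^ 14 = 36 := by decide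
    have hx14 := (k _).resolve_left hx
    have hxp : (x : ZMod 43) ^ p = 1 ∨ (x : ZMod 43) ^ p = 6 ∨ (x : ZMod 43) ^ p = 36 := by
      obtain ⟨j, rfl⟩ := hp
      rw [pow_mul]
      generalize (x : ZMod 43) ^ 14 = v at hx14 ⊢
      have hv : v ^ 3 = 1 := by
        rcases hx14 with rfl | rfl | rfl <;> decide
      have e : v ^ j = v ^ (j % 3) := by
        conv_lhs => rw [← Nat.div_add_mod j 3, pow_add, pow_mul, hv, one_pow, one_mul]
      rw [e]
      have hj : j % 3 = 0 ∨ j % 3 = 1 ∨ j % 3 = 2 := by omega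
      rcases hj with hj | hj | hj <;> rw [hj] <;> rcases hx14 with rfl | rfl | rfl <;> decide
    have h3 : (x : ZMod 43) ^ p = ((y ^ (q / d) : ℤ) : ZMod 43) ^ d + 6 := by
      have e0 : x ^ p = (y ^ (q / d)) ^ d + 6 := by
        rw [← h1, ← pow_mul, Nat.div_mul_cancel hp2]
      have := congrArg (fun t : ℤ => (t : ZMod 43)) e0
      push_cast at this ⊢
      exact this
    obtain ⟨E, hE, hJ⟩ := ft_a (by omega) (pow_pos hy (q / d)) h1
    set z : ℤ := y ^ (q / d) with hz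
    have hzd : (z : ZMod 43) ^ d = (z : ZMod 43) ^ 29 := by
      have k42 : ∀ w : ZMod 43, w = 0 ∨ w ^ 42 = 1 := by decide
      rcases k42 (z : ZMod 43) with h0 | h0
      · rw [h0, zero_pow (by omega), zero_pow (by norm_num)]
      · conv_lhs => rw [← Nat.div_add_mod d 42, pow_add, pow_mul, h0, one_pow, one_mul, hd42]
    rw [hzd] at h3
    have k1 : ∀ w : ZMod 43, 1 = w ^ 29 + 6 → w = 13 := by decide
    have k2 : ∀ w : ZMod 43, 6 = w ^ 29 + 6 → w = 0 := by decide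
    have k3 : ∀ w : ZMod 43, 36 = w ^ 29 + 6 → w = 5 := by decide
    have hmod : ∀ r : ℤ, (z : ZMod 43) = (r : ZMod 43) → z % 43 = r % 43 := by
      intro r hr
      rw [ZMod.intCast_eq_intCast_iff'] at hr
      exact_mod_cast hr
    rcases hxp with hx' | hx' | hx' <;> rw [hx'] at h3
    · have h4 := hmod 13 (by rw [k1 _ h3]; norm_num)
      have h5 : E % 43 = 23 := by omega
      rw [jac43 h5] at hJ
      exact absurd hJ (by norm_num)
    · have h4 := hmod 0 (by rw [k2 _ h3]; norm_num)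
      have h5 : E % 43 = 9 := by omega
      rw [jac43 h5] at hJ
      exact absurd hJ (by norm_num)
    · have h4 := hmod 5 (by rw [k3 _ h3]; norm_num)
      have h5 : E % 43 = 21 := by omega
      rw [jac43 h5] at hJ
      exact absurd hJ (by norm_num)

end Pool.Agent.SIX
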