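import Pool.Agent.Lib_helper49.SIX.Core

set_option autoImplicit false

namespace Pool.Agent.SIX

/-- the equation for a divisor `d` of `q` -/
theorem reduce {x y : ℤ} {p q d : ℕ} (hp : 2 ∣ p) (hd : d ∣ q) (h : x ^ p - y ^ q = 6) :
    (x ^ (p / 2)) ^ 2 = (y ^ (q / d)) ^ d + 6 := by
  rw [← pow_mul, ← pow_mul, Nat.div_mul_cancel hp, Nat.div_mul_cancel hd]
  linarith

/-- `6 ∣ p` -/
theorem six_dvd {x y : ℤ} {p q : ℕ} (hy : 0 < y) (hp : 6 ∣ p) (h : x ^ p - y ^ q = 6)
    {d e : ℕ} (hd : d ∣ q) (hd6 : d % 6 = 5) (he : e ∣ q) (he2 : e % 2 = 1) (he3 : e % 3 ≠ 0)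
    (he7 : ¬ (e % 7 = 1 ∨ e % 7 = 2 ∨ e % 7 = 4)) : False := by
  have hp2 : 2 ∣ p := dvd_trans (by norm_num) hp
  have h1 := reduce hp2 hd h
  have h2 := reduce hp2 he h
  by_cases h7 : (7 : ℤ) ∣ x ^ (p / 2)
  · exact he7 (seven_b he2 he3 (by omega) (pow_pos hy _) h2 h7)
  · have hx : (x : ZMod 7) ≠ 0 := by
      intro h0
      rw [ZMod.intCast_zmod_eq_zero_iff_dvd] at h0
      apply h7
      apply dvd_pow h0
      rintro h00
      have hp0 : p = 0 := by omega
      subst hp0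
      have : y ^ q = -5 := by simpa using (by linarith : y ^ q = x ^ 0 - 6)
      have := pow_pos hy q
      linarith
    have k : ∀ w : ZMod 7, w = 0 ∨ w ^ 6 = 1 := by decide
    have hx6 : (x : ZMod 7) ^ 6 = 1 := (k _).resolve_left hx
    have hxp : (x : ZMod 7) ^ p = 1 := by
      obtain ⟨j, rfl⟩ := hp
      rw [pow_mul, hx6, one_pow]
    have h3 : (x : ZMod 7) ^ p = ((y ^ (q / d) : ℤ) : ZMod 7) ^ d + 6 := by
      have e0 : x ^ p = (y ^ (q / d)) ^ d + 6 := by
        rw [← h1, ← pow_mul, Nat.div_mul_cancel hp2]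
      have := congrArg (fun t : ℤ => (t : ZMod 7)) e0
      push_cast at this ⊢
      exact this
    set z : ℤ := y ^ (q / d) with hz
    rw [hxp] at h3
    have k1 : ∀ w : ZMod 7, 1 = w + 6 → w = 2 := by decide
    have h4 := k1 _ h3
    rcases k (z : ZMod 7) with h0 | h0
    · rw [h0, zero_pow (by omega)] at h4
      exact absurd h4 (by decide)
    · have e : (z : ZMod 7) ^ d = (z : ZMod 7) ^ (d % 6) := by
        conv_lhs => rw [← Nat.div_add_mod d 6, pow_add, pow_mul, h0, one_pow, one_mul]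
      rw [e, hd6] at h4
      have k5 : ∀ w : ZMod 7, w ^ 5 = 2 → w = 4 := by decide
      have h5 := k5 _ h4
      have h6 : z % 7 = 4 := by
        have h3 : (z : ZMod 7) = ((4 : ℤ) : ZMod 7) := by rw [h5]; norm_num
        rw [ZMod.intCast_eq_intCast_iff'] at h3
        exact_mod_cast h3
      have h7 := seven_a (by omega) (by omega) (pow_pos hy _) h1
      rw [← hz] at h7
      omega

/-- `10 ∣ p` or `20 ∣ p` -/
theorem ten_dvd {x y : ℤ} {p q : ℕ} (hy : 0 < y) (hp : 10 ∣ p) (hp0 : 0 < p)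
    (h : x ^ p - y ^ q = 6)
    {d e : ℕ} (hd : d ∣ q) (hd4 : d % 4 = 3 ∨ (20 ∣ p ∧ d % 2 = 1 ∧ 3 ≤ d)) (he : e ∣ q)
    (he2 : e % 2 = 1) (he5 : ¬ (e % 5 = 1 ∨ e % 5 = 4)) : False := by
  have hp2 : 2 ∣ p := dvd_trans (by norm_num) hp
  have hdo : d % 2 = 1 := by omega
  have hd3 : 3 ≤ d := by omega
  have h1 := reduce hp2 hd h
  have h2 := reduce hp2 he h
  by_cases h5 : (5 : ℤ) ∣ x ^ (p / 2)
  · exact he5 (five_b he2 (by omega) (pow_pos hy _) h2 h5)
  · have k : ∀ w : ZMod 25, w ^ 5 = 0 ∨ w ^ 10 = 1 ∨ w ^ 10 = -1 := by decide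
    have hx0 : (x : ZMod 25) ^ 5 ≠ 0 := by
      intro h0
      have h01 : ((x ^ 5 : ℤ) : ZMod 25) = 0 := by push_cast; exact h0
      rw [ZMod.intCast_zmod_eq_zero_iff_dvd] at h01
      have h02 : (5 : ℤ) ∣ x ^ 5 := dvd_trans (by norm_num) h01
      have h03 : (5 : ℤ) ∣ x := (Int.prime_iff_natAbs_prime.2 (by norm_num)).dvd_of_dvd_pow h02
      exact h5 (dvd_pow h03 (by omega))
    have hx10 := (k _).resolve_left hx0
    have hxp : (x : ZMod 25) ^ p = 1 ∨ ((x : ZMod 25) ^ p = -1 ∧ ¬ 20 ∣ p) := by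
      obtain ⟨j, hj⟩ := hp
      rcases hx10 with h10 | h10
      · left; rw [hj, pow_mul, h10, one_pow]
      · rcases Nat.even_or_odd j with hev | hod
        · left; rw [hj, pow_mul, h10, hev.neg_one_pow]
        · right
          refine ⟨by rw [hj, pow_mul, h10, hod.neg_one_pow], ?_⟩
          intro h20
          obtain ⟨i, hi⟩ := h20
          obtain ⟨i', hi'⟩ := hod
          omega
    have h3 : (x : ZMod 25) ^ p = ((y ^ (q / d) : ℤ) : ZMod 25) ^ d + 6 := by
      have e0 : x ^ p = (y ^ (q / d)) ^ d + 6 := by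
        rw [← h1, ← pow_mul, Nat.div_mul_cancel hp2]
      have := congrArg (fun t : ℤ => (t : ZMod 25)) e0
      push_cast at this ⊢
      exact this
    have h7 := five_a hdo hd3 (pow_pos hy (q / d)) h1
    set z : ℤ := y ^ (q / d) with hz
    have kz : ∀ w : ZMod 25, w ^ 2 = 0 ∨ w ^ 20 = 1 := by decide
    have hd2 : ∀ w : ZMod 25, w ^ 2 = 0 → w ^ d = 0 := by
      intro w hw
      obtain ⟨i, hi⟩ : ∃ i, d = 2 + i := ⟨d - 2, by omega⟩
      rw [hi, pow_add, hw, zero_mul]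
    rcases hxp with h10 | ⟨h10, h20⟩
    · rw [h10] at h3
      have k1 : ∀ w : ZMod 25, 1 = w + 6 → w = 20 := by decide
      have h4 := k1 _ h3
      rcases kz (z : ZMod 25) with h0 | h0
      · rw [hd2 _ h0] at h4
        exact absurd h4 (by decide)
      · have : ((z : ZMod 25) ^ d) ^ 20 = 1 := by
          rw [← pow_mul, mul_comm, pow_mul, h0, one_pow]
        rw [h4] at this
        exact absurd this (by decide)
    · rw [h10] at h3
      have hd4' : d % 4 = 3 := by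
        rcases hd4 with h4 | h4
        · exact h4
        · exact absurd h4.1 h20
      -- reduce to `ZMod 5`
      have h35 : ((-1 : ℤ) : ZMod 5) = ((z : ZMod 5)) ^ d + 6 := by
        have e1 : ((-1 : ℤ) : ZMod 25) = ((z ^ d + 6 : ℤ) : ZMod 25) := by
          push_cast; exact h3
        rw [ZMod.intCast_eq_intCast_iff_dvd_sub] at e1
        have e2 : ((-1 : ℤ) : ZMod 5) = ((z ^ d + 6 : ℤ) : ZMod 5) := by
          rw [ZMod.intCast_eq_intCast_iff_dvd_sub]
          exact dvd_trans (by norm_num) e1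
        rw [e2]; push_cast; rfl
      have k4 : ∀ w : ZMod 5, w = 0 ∨ w ^ 4 = 1 := by decide
      have k1 : ∀ w : ZMod 5, ((-1 : ℤ) : ZMod 5) = w + 6 → w = 3 := by decide
      have h4 := k1 _ h35
      rcases k4 (z : ZMod 5) with h0 | h0
      · rw [h0, zero_pow (by omega)] at h4
        exact absurd h4 (by decide)
      · have e : (z : ZMod 5) ^ d = (z : ZMod 5) ^ (d % 4) := by
          conv_lhs => rw [← Nat.div_add_mod d 4, pow_add, pow_mul, h0, one_pow, one_mul]
        rw [e, hd4'] at h4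
        have k5 : ∀ w : ZMod 5, w ^ 3 = 3 → w = 2 := by decide
        have h5' := k5 _ h4
        have h6 : z % 5 = 2 := by
          have h3 : (z : ZMod 5) = ((2 : ℤ) : ZMod 5) := by rw [h5']; norm_num
          rw [ZMod.intCast_eq_intCast_iff'] at h3
          exact_mod_cast h3
        omega

end Pool.Agent.SIX
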