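import Pool.Agent.Lib_helper49.SIX.Eight

/-!
# `4 ∣ p`: the primes dividing `z ^ 8 + 1`, and `1679617 = 17 · 98801`
-/

set_option autoImplicit false

namespace Pool.Agent.SIX

/-- reciprocity for an integer numerator -/
theorem recip_int {c : ℤ} {M : ℕ} (hM : M % 4 = 1) (hc : c % 2 = 1) :
    jacobiSym c M = jacobiSym (M : ℤ) c.natAbs := by
  have ho : Odd c.natAbs := by
    rw [Nat.odd_iff]; omega
  have q := jacobiSym.quadratic_reciprocity_one_mod_four (a := M) (b := c.natAbs) hM ho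
  rw [q]
  rcases Int.natAbs_eq c with h | h
  · rw [← h]
  · conv_lhs => rw [h]
    rw [show -((c.natAbs : ℕ) : ℤ) = (-1) * (c.natAbs : ℤ) by ring, jacobiSym.mul_left,
      jacobiSym.at_neg_one (Nat.odd_iff.2 (by omega)), ZMod.χ₄_nat_one_mod_four hM, one_mul]

theorem neg_left {c : ℤ} {M : ℕ} (hM : M % 4 = 1) : jacobiSym (-c) M = jacobiSym c M := by
  rw [show -c = (-1) * c by ring, jacobiSym.mul_left,
      jacobiSym.at_neg_one (Nat.odd_iff.2 (by omega)), ZMod.χ₄_nat_one_mod_four hM, one_mul]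

theorem chi_one {C : ℕ} (h : C % 8 = 1) : jacobiSym 2 C = 1 := by
  rw [jacobiSym.at_two (Nat.odd_iff.2 (by omega)), ZMod.χ₈_nat_eq_if_mod_eight]
  rw [if_neg (by omega), if_pos (by omega)]

/-- the modulus `m` -/
theorem exists_m {z : ℤ} (hz : 0 < z) (h8 : z % 8 = 3) :
    ∃ m : ℕ, 2 * (m : ℤ) = z ^ 8 + 1 ∧ m % 16 = 1 := by
  obtain ⟨t, ht⟩ : ∃ t : ℕ, z = 8 * t + 3 := ⟨(z / 8).toNat, by omega⟩
  obtain ⟨b, hb⟩ : ∃ b : ℕ, b = 4 * t ^ 2 + 3 * t := ⟨_, rfl⟩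
  obtain ⟨a, ha⟩ : ∃ a : ℕ, a = 16 * b ^ 2 + 18 * b + 5 := ⟨_, rfl⟩
  have h2 : z ^ 2 = 16 * b + 9 := by rw [ht, hb]; push_cast; ring
  have h4 : z ^ 4 = 16 * a + 1 := by
    have : z ^ 4 = (z ^ 2) ^ 2 := by ring
    rw [this, h2, ha]; push_cast; ring
  refine ⟨128 * a ^ 2 + 16 * a + 1, ?_, ?_⟩
  · have : z ^ 8 = (z ^ 4) ^ 2 := by ring
    rw [this, h4]; push_cast; ring
  · have : 128 * a ^ 2 + 16 * a + 1 = 16 * (8 * a ^ 2 + a) + 1 := by ring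
    omega

theorem phi9 (z : ℤ) {d : ℕ} (hd : d % 16 = 9) : z ^ 8 + 1 ∣ z ^ d + z := by
  obtain ⟨k, hk⟩ : ∃ k, d = 8 * (2 * k + 1) + 1 := ⟨d / 16, by omega⟩
  have hodd : Odd (2 * k + 1) := ⟨k, rfl⟩
  have h1 : z ^ 8 + 1 ∣ (z ^ 8) ^ (2 * k + 1) + 1 := by
    simpa using hodd.add_dvd_pow_add_pow (z ^ 8) 1
  have h2 : z ^ d + z = ((z ^ 8) ^ (2 * k + 1) + 1) * z := by
    rw [hk, pow_succ, pow_mul]; ring
  rw [h2]
  exact dvd_mul_of_dvd_left h1 z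

theorem phi11 (z : ℤ) {d : ℕ} (hd : d % 16 = 11) : z ^ 8 + 1 ∣ z ^ d + z ^ 3 := by
  obtain ⟨k, hk⟩ : ∃ k, d = 8 * (2 * k + 1) + 3 := ⟨d / 16, by omega⟩
  have hodd : Odd (2 * k + 1) := ⟨k, rfl⟩
  have h1 : z ^ 8 + 1 ∣ (z ^ 8) ^ (2 * k + 1) + 1 := by
    simpa using hodd.add_dvd_pow_add_pow (z ^ 8) 1
  have h2 : z ^ d + z ^ 3 = ((z ^ 8) ^ (2 * k + 1) + 1) * z ^ 3 := by
    rw [hk, pow_add, pow_mul]; ring
  rw [h2]
  exact dvd_mul_of_dvd_left h1 _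

theorem phi3 (z : ℤ) {d : ℕ} (hd : d % 16 = 3) : z ^ 8 + 1 ∣ z ^ d - z ^ 3 := by
  obtain ⟨k, hk⟩ : ∃ k, d = 16 * k + 3 := ⟨d / 16, by omega⟩
  have h1 : z ^ 16 - 1 ∣ (z ^ 16) ^ k - 1 := by simpa using sub_dvd_pow_sub_pow (z ^ 16) 1 k
  have h3 : z ^ 8 + 1 ∣ z ^ 16 - 1 := ⟨z ^ 8 - 1, by ring⟩
  have h2 : z ^ d - z ^ 3 = ((z ^ 16) ^ k - 1) * z ^ 3 := by
    rw [hk, pow_add, pow_mul]; ring
  rw [h2]
  exact dvd_mul_of_dvd_left (dvd_trans h3 h1) _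

/-- `d ≡ 9 mod 16` -/
theorem c9 {X z : ℤ} {d : ℕ} (hd : d % 16 = 9) (hz : 0 < z) (h : X ^ 2 = z ^ d + 6) :
    jacobiSym (z - 6) 1679617 ≤ 0 := by
  have h8 := mod_eight (by omega) (by omega) h
  obtain ⟨m, hm, hm16⟩ := exists_m hz h8
  have hdvd : (m : ℤ) ∣ X ^ 2 - (-(z - 6)) := by
    have e : X ^ 2 - (-(z - 6)) = z ^ d + z := by rw [h]; ring
    rw [e]
    exact dvd_trans ⟨2, by rw [← hm]; ring⟩ (phi9 z hd)
  have hJ := jac_nonneg hdvd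
  rw [neg_left (by omega), recip_int (by omega) (by omega)] at hJ
  rw [recip_int (by norm_num) (by omega)]
  have hC8 : (z - 6).natAbs % 8 = 5 ∨ ((z - 6).natAbs % 8 = 3 ∧ z = 3) := by omega
  have h3 := mod_three (by omega) (by omega) h
  have hC5 : (z - 6).natAbs % 8 = 5 := by omega
  have hmod : (2 * (m : ℤ)) % ((z - 6).natAbs : ℕ) = ((1679617 : ℕ) : ℤ) % ((z - 6).natAbs : ℕ) := by
    apply Int.modEq_iff_dvd.2
    rw [Int.natCast_natAbs, abs_dvd]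
    refine ⟨-(z ^ 7 + 6 * z ^ 6 + 36 * z ^ 5 + 216 * z ^ 4 + 1296 * z ^ 3 + 7776 * z ^ 2
      + 46656 * z + 279936), ?_⟩
    rw [hm]; push_cast; ring
  have h2 := jacobiSym.mod_left' hmod
  rw [jacobiSym.mul_left, chi_five hC5] at h2
  linarith

/-- `36 z ^ 2 + 1` against `z - s`, `s = ±216` -/
theorem cH {z s : ℤ} {H : ℕ} (hH : (H : ℤ) = 36 * z ^ 2 + 1) (hz : z % 2 = 1)
    (hs : s = 216 ∨ s = -216) : jacobiSym (z - s) H = jacobiSym (z - s) 1679617 := by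
  have hH4 : H % 4 = 1 := by
    obtain ⟨w, hw⟩ : ∃ w : ℤ, z ^ 2 = w := ⟨_, rfl⟩
    rw [hw] at hH
    omega
  have hodd : (z - s) % 2 = 1 := by rcases hs with rfl | rfl <;> omega
  rw [recip_int hH4 hodd, recip_int (by norm_num) hodd]
  apply jacobiSym.mod_left'
  apply Int.modEq_iff_dvd.2
  rw [Int.natCast_natAbs, abs_dvd, hH]
  refine ⟨-(36 * (z + s)), ?_⟩
  rcases hs with rfl | rfl <;> push_cast <;> ring

theorem odd_sq {z : ℤ} (hz : z % 2 = 1) : z ^ 2 % 8 = 1 := by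
  have h : z % 8 = 1 ∨ z % 8 = 3 ∨ z % 8 = 5 ∨ z % 8 = 7 := by omega
  rcases h with h | h | h | h <;> rw [pow_two, Int.mul_emod, h] <;> norm_num

/-- `d ≡ 3 mod 16` -/
theorem c3 {X z : ℤ} {d : ℕ} (hd : d % 16 = 3) (hd3 : 3 ≤ d) (hz : 0 < z)
    (h : X ^ 2 = z ^ d + 6) : 0 ≤ jacobiSym (z - 216) 1679617 := by
  have h8 := mod_eight (by omega) (by omega) h
  obtain ⟨m, hm, hm16⟩ := exists_m hz h8
  obtain ⟨G, hG⟩ : ∃ G : ℕ, (G : ℤ) = z ^ 3 + 6 := ⟨(z ^ 3 + 6).toNat, by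
    have := pow_pos hz 3
    omega⟩
  obtain ⟨H, hH⟩ : ∃ H : ℕ, (H : ℤ) = 36 * z ^ 2 + 1 := ⟨(36 * z ^ 2 + 1).toNat, by
    have := pow_pos hz 2
    omega⟩
  have hG8 : G % 8 = 1 := by
    have : z ^ 3 % 8 = 3 := by
      rw [pow_succ, pow_two, Int.mul_emod, Int.mul_emod z z, h8]; norm_num
    omega
  have hH8 : H % 8 = 5 := by
    have := odd_sq (z := z) (by omega)
    omega
  have hdvd : (m : ℤ) ∣ X ^ 2 - G := by
    have e : X ^ 2 - (G : ℤ) = z ^ d - z ^ 3 := by rw [h, hG]; ring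
    rw [e]
    exact dvd_trans ⟨2, by rw [← hm]; ring⟩ (phi3 z hd)
  have hJ := jac_nonneg hdvd
  have q1 := jacobiSym.quadratic_reciprocity_one_mod_four (a := m) (b := G) (by omega)
    (Nat.odd_iff.2 (by omega))
  have q2 := jacobiSym.quadratic_reciprocity_one_mod_four (a := H) (b := G) (by omega)
    (Nat.odd_iff.2 (by omega))
  have hmod : (2 * (m : ℤ)) % G = (H : ℤ) % G := by
    apply Int.modEq_iff_dvd.2
    refine ⟨-(z ^ 2 * (z ^ 3 - 6)), ?_⟩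
    rw [hm, hG, hH]; ring
  have h2 := jacobiSym.mod_left' hmod
  rw [jacobiSym.mul_left, chi_one hG8, one_mul, q1, q2] at h2
  -- `(G / H)`
  have h6H : Int.gcd 6 H = 1 := by
    rw [← Int.isCoprime_iff_gcd_eq_one]
    exact ⟨-(6 * z ^ 2), 1, by rw [hH]; ring⟩
  have hmod2 : (6 ^ 2 * (G : ℤ)) % H = (-(z - 216)) % H := by
    apply Int.modEq_iff_dvd.2
    refine ⟨-z, ?_⟩
    rw [hG, hH]; ring
  have h4 := jacobiSym.mod_left' hmod2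
  rw [jacobiSym.mul_left, jacobiSym.pow_left, jacobiSym.sq_one h6H, one_mul,
    neg_left (by omega), cH hH (by omega) (Or.inl rfl)] at h4
  rw [← h4, ← h2]
  exact hJ

/-- `d ≡ 11 mod 16` -/
theorem c11 {X z : ℤ} {d : ℕ} (hd : d % 16 = 11) (hz : 0 < z)
    (h : X ^ 2 = z ^ d + 6) : jacobiSym (z + 216) 1679617 ≤ 0 := by
  have h8 := mod_eight (by omega) (by omega) h
  obtain ⟨m, hm, hm16⟩ := exists_m hz h8
  obtain ⟨G, hG⟩ : ∃ G : ℕ, (G : ℤ) = z ^ 3 - 6 := ⟨(z ^ 3 - 6).toNat, by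
    have h3 : (3 : ℤ) ≤ z := by omega
    have : (3 : ℤ) ^ 3 ≤ z ^ 3 := pow_le_pow_left₀ (by norm_num) h3 3
    omega⟩
  obtain ⟨H, hH⟩ : ∃ H : ℕ, (H : ℤ) = 36 * z ^ 2 + 1 := ⟨(36 * z ^ 2 + 1).toNat, by
    have := pow_pos hz 2
    omega⟩
  have hG8 : G % 8 = 5 := by
    have : z ^ 3 % 8 = 3 := by
      rw [pow_succ, pow_two, Int.mul_emod, Int.mul_emod z z, h8]; norm_num
    omega
  have hH8 : H % 8 = 5 := by
    have := odd_sq (z := z) (by omega)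
    omega
  have hdvd : (m : ℤ) ∣ X ^ 2 - (-(G : ℤ)) := by
    have e : X ^ 2 - (-(G : ℤ)) = z ^ d + z ^ 3 := by rw [h, hG]; ring
    rw [e]
    exact dvd_trans ⟨2, by rw [← hm]; ring⟩ (phi11 z hd)
  have hJ := jac_nonneg hdvd
  rw [neg_left (by omega)] at hJ
  have q1 := jacobiSym.quadratic_reciprocity_one_mod_four (a := m) (b := G) (by omega)
    (Nat.odd_iff.2 (by omega))
  have q2 := jacobiSym.quadratic_reciprocity_one_mod_four (a := H) (b := G) (by omega)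
    (Nat.odd_iff.2 (by omega))
  have hmod : (2 * (m : ℤ)) % G = (H : ℤ) % G := by
    apply Int.modEq_iff_dvd.2
    refine ⟨-(z ^ 2 * (z ^ 3 + 6)), ?_⟩
    rw [hm, hG, hH]; ring
  have h2 := jacobiSym.mod_left' hmod
  rw [jacobiSym.mul_left, chi_five hG8, q1, q2] at h2
  have h6H : Int.gcd 6 H = 1 := by
    rw [← Int.isCoprime_iff_gcd_eq_one]
    exact ⟨-(6 * z ^ 2), 1, by rw [hH]; ring⟩
  have hmod2 : (6 ^ 2 * (G : ℤ)) % H = (-(z - (-216))) % H := by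
    apply Int.modEq_iff_dvd.2
    refine ⟨-z, ?_⟩
    rw [hG, hH]; ring
  have h4 := jacobiSym.mod_left' hmod2
  rw [jacobiSym.mul_left, jacobiSym.pow_left, jacobiSym.sq_one h6H, one_mul,
    neg_left (by omega), cH hH (by omega) (Or.inr rfl)] at h4
  rw [show z + 216 = z - (-216) by ring, ← h4, ← h2]
  linarith

end Pool.Agent.SIX
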