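import Mathlib

/-!
# `4 ∣ p`: the table for 17 and 98801
-/

set_option autoImplicit false

namespace Pool.Agent.SIX

/-- Euler symbol mod 98801 -/
def t2 (c : ℕ) : ℕ := (c ^ 200 % 98801) ^ 247 % 98801

/-- Euler symbol mod 17 -/
def t1 (c : ℕ) : ℕ := c ^ 8 % 17

/-- the two symbols agree -/
def same (c2 c1 : ℕ) : Bool := (t2 c2 == 1 && t1 c1 == 1) || (t2 c2 == 98800 && t1 c1 == 16)

/-- the two symbols differ -/
def diff (c2 c1 : ℕ) : Bool := (t2 c2 == 1 && t1 c1 == 16) || (t2 c2 == 98800 && t1 c1 == 1)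

/-- class `9 mod 16` -/
def k9 (n n1 u : ℕ) : Bool := same ((n + 98795) ^ u % 98801 + 98795) ((n1 + 11) ^ u % 17 + 11)

/-- class `11 mod 16` of the inverse exponent, class `3 mod 16` of the divisor -/
def k3 (n n1 u : ℕ) : Bool := diff ((n + 98795) ^ u % 98801 + 98585) ((n1 + 11) ^ u % 17 + 5)

/-- class `3 mod 16` of the inverse exponent, class `11 mod 16` of the divisor -/
def k11 (n n1 u : ℕ) : Bool := same ((n + 98795) ^ u % 98801 + 216) ((n1 + 11) ^ u % 17 + 12)

/-- some class excludes `(n, n1)` -/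
def kl (n n1 : ℕ) : Bool :=
  k9 n n1 393 || k9 n n1 153 || k9 n n1 89 || k9 n n1 41 || k9 n n1 137 || k9 n n1 537 ||
  k9 n n1 489 || k9 n n1 73 || k9 n n1 409 || k11 n n1 291 || k11 n n1 467 || k9 n n1 9 ||
  k3 n n1 11

/-- the statement of the table at `n` -/
def good (n : ℕ) : Bool :=
  if (n ^ 100 % 98801) ^ 247 % 98801 == 1 then kl n 1 && kl n 4 && kl n 13 && kl n 16 else true

end Pool.Agent.SIX
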